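import Mathlib
import Pool.Agent.TFA.Defs
import Pool.Agent.OBX.Defs

/-!
TFB (Case B absorber, `AbsBStmt` of OBX, MP_767178_co).
Items are edges (`Sum.inl e`) and pairs vertex-colour (`Sum.inr (v, c)`); `TFA.Item` and
`Pool.Agent.OBW.Item` are the same abbreviation.
-/

set_option autoImplicit false

namespace TFB

open Finset TFA
open Pool.Agent.OBX (IsPath IsLink Mem Real RealL pit ends rends Sep)

section
variable {V C : Type} [DecidableEq V] [DecidableEq C]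

/-- `S` is a disjoint union of open paths realizing the list of (colour, member). -/
inductive RM : List (C × Mem V) → Finset (Item V C) → Prop
  | nil : RM [] ∅
  | cons (c : C) (m : Mem V) (D : List (C × Mem V)) (q S : Finset (Item V C)) :
      IsPath m.2.2 c m.1 m.2.1 q → RM D S → Disjoint q S → RM ((c, m) :: D) (q ∪ S)

/-- members of the same colour have different ends -/
def sp (p q : C × Mem V) : Prop :=
  p.1 = q.1 → p.2.1 ≠ q.2.1 ∧ p.2.1 ≠ q.2.2.1 ∧ p.2.2.1 ≠ q.2.1 ∧ p.2.2.1 ≠ q.2.2.1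

/-- `D` is a list of members with 2, ..., 6 vertices, separated, the pairs of their ends are in `T` -/
def Mk (D : List (C × Mem V)) (T : Finset (Item V C)) : Prop :=
  (∀ p ∈ D, p.2.1 ≠ p.2.2.1 ∧ 2 ≤ p.2.2.2 ∧ p.2.2.2 ≤ 6 ∧ (Sum.inr (p.2.1, p.1) : Item V C) ∈ T ∧
    (Sum.inr (p.2.2.1, p.1) : Item V C) ∈ T) ∧ D.Pairwise sp

/-- the members of colour `c` -/
def msd (D : List (C × Mem V)) (c : C) : List (Mem V) := (D.filter (fun p => p.1 = c)).map Prod.snd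

/-- `R` (with the members `D`) absorbs the leftover `Lo` with the requests `Q` (colour, ends) -/
def Abz (D : List (C × Mem V)) (R Lo : Finset (Item V C)) (Q : Finset (C × V × V)) : Prop :=
  ∃ (Y : Finset (Item V C)) (z : C × V × V → Finset (Item V C)), RM D Y ∧
    (∀ r ∈ Q, IsLink 1 r.1 r.2.1 r.2.2 (z r)) ∧ (∀ r ∈ Q, Disjoint Y (z r)) ∧
    (∀ r ∈ Q, ∀ r' ∈ Q, r ≠ r' → Disjoint (z r) (z r')) ∧ Y ∪ Q.biUnion z = R ∪ Lo

/-- balanced leftover with requests -/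
structure LfB (G : SimpleGraph V) (W : Finset V) (Γ : Finset C) (b : ℕ) (Lo : Finset (Item V C))
    (Q : Finset (C × V × V)) : Prop where
  hL : ∀ i ∈ Lo, In W Γ i
  hG : ∀ e : Sym2 V, Sum.inl e ∈ Lo → e ∈ G.edgeSet
  hQ : ∀ r ∈ Q, r.1 ∈ Γ ∧ r.2.1 ∈ W ∧ r.2.2 ∈ W ∧ r.2.1 ≠ r.2.2
  hdeg : ∀ v, (Lo.toLeft.filter (fun e => v ∈ e)).card =
    2 * (Lo.toRight.filter (fun p => p.1 = v)).card + (Q.filter (fun r => r.2.1 = v)).card +
      (Q.filter (fun r => r.2.2 = v)).card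
  hcol : ∀ c, (Lo.toRight.filter (fun p => p.2 = c)).card = (Q.filter (fun r => r.1 = c)).card
  hb : Q.card ≤ b

/-- vertices needed for one leftover with at most `b` requests -/
def wB (b : ℕ) : ℕ := 49 * b + 1

/-- colours needed -/
def cB (b : ℕ) : ℕ := 26 * b

/-- items needed -/
def rB (b : ℕ) : ℕ := 239 * b

end

/-! ### The data of one leftover -/

/-- index type of the new vertices of the absorber of one leftover -/
abbrev Nv (K : Type) := (K × Fin 3) ⊕ ((K ⊕ K) × Fin 3)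

/-- the data of the absorber of one leftover (`K` = set of the requests): corners `a k`, `b k`,
orientation `ρ`, colours `c` of the requests, new colours `γ`, new vertices `f` -/
structure Dat (V C K : Type) where
  a : K ⊕ K → V
  b : K ⊕ K → V
  ρ : Equiv.Perm (K ⊕ K)
  c : K → C
  γ : K ⊕ K → C
  f : Nv K → V

variable {V C K : Type}

namespace Dat

def x (d : Dat V C K) (κ : K) : V := d.f (Sum.inl (κ, 0))
def y (d : Dat V C K) (κ : K) : V := d.f (Sum.inl (κ, 1))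
def y' (d : Dat V C K) (κ : K) : V := d.f (Sum.inl (κ, 2))
def s (d : Dat V C K) (k : K ⊕ K) : V := d.f (Sum.inr (k, 0))
def g (d : Dat V C K) (k : K ⊕ K) : V := d.f (Sum.inr (k, 1))
def h (d : Dat V C K) (k : K ⊕ K) : V := d.f (Sum.inr (k, 2))

/-- new neighbour of `a k` -/
def np (d : Dat V C K) : K ⊕ K → V
  | Sum.inl κ => d.x κ
  | Sum.inr κ => d.y' κ

/-- new neighbour of `b k` -/
def nm (d : Dat V C K) : K ⊕ K → V
  | Sum.inl κ => d.x κ
  | Sum.inr κ => d.y κ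

/-- first ends of the edges of the long switch -/
def u (d : Dat V C K) (o : (K ⊕ K) × Fin 4) : V := ![d.a o.1, d.nm o.1, d.s o.1, d.g o.1] o.2

/-- second ends of the edges of the long switch -/
def w (d : Dat V C K) (o : (K ⊕ K) × Fin 4) : V := ![d.np o.1, d.b o.1, d.a o.1, d.h o.1] o.2

/-- the permutation of the long switch:
`(k,0) ↦ (k,3)`, `(k,1) ↦ (swap k,0)`, `(k,2) ↦ (ρ k,1)`, `(k,3) ↦ (k,2)` -/
def π (d : Dat V C K) : Equiv.Perm ((K ⊕ K) × Fin 4) where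
  toFun o := ![(o.1, 3), (o.1.swap, 0), (d.ρ o.1, 1), (o.1, 2)] o.2
  invFun o := ![(o.1.swap, 1), (d.ρ.symm o.1, 2), (o.1, 3), (o.1, 0)] o.2
  left_inv := by
    rintro ⟨k, j⟩
    fin_cases j <;> simp
  right_inv := by
    rintro ⟨k, j⟩
    fin_cases j <;> simp

end Dat

/-- the conditions on the vertices and colours -/
structure Ok (W : Finset V) (Γ : Finset C) (d : Dat V C K) : Prop where
  aW : ∀ k, d.a k ∈ W
  bW : ∀ k, d.b k ∈ W
  ne : ∀ κ, d.a (Sum.inl κ) ≠ d.b (Sum.inl κ)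
  eq : ∀ κ, d.a (Sum.inr κ) = d.b (Sum.inr κ)
  lp : ∀ k, d.a k ≠ d.b (d.ρ k)
  ie : Function.Injective (fun k => s(d.a k, d.b (d.ρ k)))
  ip : Function.Injective (fun κ => (d.a (Sum.inr κ), d.c κ))
  cΓ : ∀ κ, d.c κ ∈ Γ
  ig : Function.Injective d.γ
  gΓ : ∀ k, d.γ k ∉ Γ
  jf : Function.Injective d.f
  fW : ∀ i, d.f i ∉ W

/-- the adjacencies of the new vertices -/
structure Ad (G : SimpleGraph V) (d : Dat V C K) : Prop where
  xa : ∀ κ, G.Adj (d.x κ) (d.a (Sum.inl κ))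
  xb : ∀ κ, G.Adj (d.x κ) (d.b (Sum.inl κ))
  yb : ∀ κ, G.Adj (d.y κ) (d.b (Sum.inr κ))
  yx : ∀ κ, G.Adj (d.y κ) (d.x κ)
  ya : ∀ κ, G.Adj (d.y' κ) (d.a (Sum.inr κ))
  yx' : ∀ κ, G.Adj (d.y' κ) (d.x κ)
  sa : ∀ k, G.Adj (d.s k) (d.a k)
  sb : ∀ k, G.Adj (d.s k) (d.b (d.ρ k))
  ga : ∀ k, G.Adj (d.g k) (d.a k)
  gb : ∀ k, G.Adj (d.g k) (d.b (d.ρ k))
  hg : ∀ k, G.Adj (d.h k) (d.g k)
  ha : ∀ k, G.Adj (d.h k) (d.a k)

/-- the explicit items of one leftover and its absorber -/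
inductive Ix (K : Type)
  | F (k : K ⊕ K) (j : Fin 4)
  | N (k : K ⊕ K) (j : Fin 4)
  | V (k : K ⊕ K)
  | L (k : K ⊕ K)
  | P (κ : K) (j : Fin 3)
  | Q (κ : K)
  | R (k : K ⊕ K) (j : Fin 5)
  deriving DecidableEq, Fintype

/-- labels: members, links, long switch, not present -/
inductive Lb (K : Type)
  | m (i : K ⊕ (K ⊕ K))
  | z (κ : K)
  | t
  | n
  deriving DecidableEq

/-- the item with index `i` -/
def IT (d : Dat V C K) : Ix K → Item V C
  | Ix.F k j => Sum.inl s(d.u (k, j), d.w (k, j))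
  | Ix.N k j => Sum.inl s(d.u (k, j), d.w (d.π (k, j)))
  | Ix.V k => Sum.inl s(d.b (d.ρ k), d.g k)
  | Ix.L k => Sum.inl s(d.a k, d.b (d.ρ k))
  | Ix.P κ j => Sum.inr (![d.x κ, d.y κ, d.y' κ] j, d.c κ)
  | Ix.Q κ => Sum.inr (d.a (Sum.inr κ), d.c κ)
  | Ix.R k j => Sum.inr (![d.s k, d.a k, d.b (d.ρ k), d.g k, d.h k] j, d.γ k)

/-- classes in state 1 (with the leftover) -/
def cls1 : Ix K → Lb K
  | Ix.F k j => if j = 0 ∨ j = 1 then Sum.elim (fun κ => Lb.z κ) (fun κ => Lb.m (Sum.inl κ)) k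
      else Lb.m (Sum.inr k)
  | Ix.N _ _ => Lb.t
  | Ix.V k => Lb.m (Sum.inr k)
  | Ix.L k => Lb.m (Sum.inr k)
  | Ix.P κ j => if j = 0 then Lb.z κ else Lb.m (Sum.inl κ)
  | Ix.Q κ => Lb.m (Sum.inl κ)
  | Ix.R k _ => Lb.m (Sum.inr k)

/-- classes in state 0 (without the leftover) -/
def cls0 : Ix K → Lb K
  | Ix.F _ _ => Lb.t
  | Ix.N k j => if j = 1 then Sum.elim (fun κ => Lb.m (Sum.inl κ)) (fun κ => Lb.m (Sum.inl κ)) k
      else Lb.m (Sum.inr k)
  | Ix.V k => Lb.m (Sum.inr k)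
  | Ix.L _ => Lb.n
  | Ix.P κ _ => Lb.m (Sum.inl κ)
  | Ix.Q _ => Lb.n
  | Ix.R k _ => Lb.m (Sum.inr k)

section
variable [DecidableEq V] [DecidableEq C] [DecidableEq K] [Fintype K]

/-- items of the class `l` in state 1 -/
def S1 (d : Dat V C K) (l : Lb K) : Finset (Item V C) :=
  (univ.filter (fun i : Ix K => cls1 i = l)).image (IT d)

/-- items of the class `l` in state 0 -/
def S0 (d : Dat V C K) (l : Lb K) : Finset (Item V C) :=
  (univ.filter (fun i : Ix K => cls0 i = l)).image (IT d)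

/-- the new explicit items -/
def ND (d : Dat V C K) : Finset (Item V C) :=
  (univ.filter (fun i : Ix K => cls0 i ≠ Lb.n)).image (IT d)

end

/-- the members of one leftover -/
def mem (d : Dat V C K) : K ⊕ (K ⊕ K) → C × Mem V
  | Sum.inl κ => (d.c κ, (d.y κ, d.y' κ, 3))
  | Sum.inr k => (d.γ k, (d.s k, d.h k, 5))

/-- the list of the members of one leftover -/
noncomputable def DD [Fintype K] (d : Dat V C K) : List (C × Mem V) :=
  (univ : Finset (K ⊕ (K ⊕ K))).toList.map (mem d)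

end TFB
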