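import Mathlib
import Pool.Agent.TFB.Defs

/-!
TFB/ItInj. The explicit items are all different; no loops.
-/

set_option autoImplicit false

namespace TFB

open Finset TFA

variable {V C K : Type}

theorem itInj {W : Finset V} {Γ : Finset C} {d : Dat V C K} (h : Ok W Γ d) :
    Function.Injective (IT d) := by
  have hf : ∀ i j, d.f i = d.f j ↔ i = j := fun i j => h.jf.eq_iff
  have hfa : ∀ i k, d.f i ≠ d.a k := fun i k e => h.fW i (e ▸ h.aW k)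
  have haf : ∀ i k, d.a k ≠ d.f i := fun i k e => h.fW i (e ▸ h.aW k)
  have hfb : ∀ i k, d.f i ≠ d.b k := fun i k e => h.fW i (e ▸ h.bW k)
  have hbf : ∀ i k, d.b k ≠ d.f i := fun i k e => h.fW i (e ▸ h.bW k)
  have hlp : ∀ k, d.a k ≠ d.b (d.ρ k) := h.lp
  have hlp' : ∀ k, d.b (d.ρ k) ≠ d.a k := fun k => (h.lp k).symm
  have hne : ∀ k, d.a (Sum.inl k) ≠ d.b (Sum.inl k) := h.ne
  have hne' : ∀ k, d.b (Sum.inl k) ≠ d.a (Sum.inl k) := fun k => (h.ne k).symm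
  have hcg : ∀ κ k, d.c κ ≠ d.γ k := fun κ k e => h.gΓ k (e ▸ h.cΓ κ)
  have hgc : ∀ κ k, d.γ k ≠ d.c κ := fun κ k e => h.gΓ k (e ▸ h.cΓ κ)
  have hgg : ∀ k k', d.γ k = d.γ k' ↔ k = k' := fun k k' => h.ig.eq_iff
  have hip : ∀ κ κ', d.a (Sum.inr κ) = d.a (Sum.inr κ') → d.c κ = d.c κ' → κ = κ' :=
    fun κ κ' e e' => h.ip (Prod.ext e e')
  intro i i' hii
  rcases i with ⟨k, j⟩ | ⟨k, j⟩ | k | k | ⟨k, j⟩ | k | ⟨k, j⟩
  · rcases i' with ⟨k', j'⟩ | ⟨k', j'⟩ | k' | k' | ⟨k', j'⟩ | k' | ⟨k', j'⟩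
    · rcases k with k | k <;> fin_cases j <;> rcases k' with k' | k' <;> fin_cases j' <;>
      simp [IT, Dat.u, Dat.w, Dat.np, Dat.nm, Dat.x, Dat.y, Dat.y', Dat.s, Dat.g, Dat.h, hf, hfa, haf, hfb, hbf] at hii ⊢ <;> grind
    · rcases k with k | k <;> fin_cases j <;> rcases k' with k' | k' <;> fin_cases j' <;>
      simp [IT, Dat.u, Dat.w, Dat.π, Dat.np, Dat.nm, Dat.x, Dat.y, Dat.y', Dat.s, Dat.g, Dat.h, hf, hfa, haf, hfb, hbf] at hii ⊢ <;> grind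
    · rcases k with k | k <;> fin_cases j <;>
      simp [IT, Dat.u, Dat.w, Dat.np, Dat.nm, Dat.x, Dat.y, Dat.y', Dat.s, Dat.g, Dat.h, hf, hfa, haf, hfb, hbf] at hii ⊢ <;> grind
    · rcases k with k | k <;> fin_cases j <;>
      simp [IT, Dat.u, Dat.w, Dat.np, Dat.nm, Dat.x, Dat.y, Dat.y', Dat.s, Dat.g, Dat.h, hf, hfa, haf, hfb, hbf] at hii ⊢
    · simp [IT] at hii
    · simp [IT] at hii
    · simp [IT] at hii
  · rcases i' with ⟨k', j'⟩ | ⟨k', j'⟩ | k' | k' | ⟨k', j'⟩ | k' | ⟨k', j'⟩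
    · rcases k with k | k <;> fin_cases j <;> rcases k' with k' | k' <;> fin_cases j' <;>
      simp [IT, Dat.u, Dat.w, Dat.π, Dat.np, Dat.nm, Dat.x, Dat.y, Dat.y', Dat.s, Dat.g, Dat.h, hf, hfa, haf, hfb, hbf] at hii ⊢ <;> grind
    · rcases k with k | k <;> fin_cases j <;> rcases k' with k' | k' <;> fin_cases j' <;>
      simp [IT, Dat.u, Dat.w, Dat.π, Dat.np, Dat.nm, Dat.x, Dat.y, Dat.y', Dat.s, Dat.g, Dat.h, hf, hfa, haf, hfb, hbf] at hii ⊢ <;> grind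
    · rcases k with k | k <;> fin_cases j <;>
      simp [IT, Dat.u, Dat.w, Dat.π, Dat.np, Dat.nm, Dat.x, Dat.y, Dat.y', Dat.s, Dat.g, Dat.h, hf, hfa, haf, hfb, hbf] at hii ⊢ <;> grind
    · rcases k with k | k <;> fin_cases j <;>
      simp [IT, Dat.u, Dat.w, Dat.π, Dat.np, Dat.nm, Dat.x, Dat.y, Dat.y', Dat.s, Dat.g, Dat.h, hf, hfa, haf, hfb, hbf] at hii ⊢
    · simp [IT] at hii
    · simp [IT] at hii
    · simp [IT] at hii
  · rcases i' with ⟨k', j'⟩ | ⟨k', j'⟩ | k' | k' | ⟨k', j'⟩ | k' | ⟨k', j'⟩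
    · rcases k' with k' | k' <;> fin_cases j' <;>
      simp [IT, Dat.u, Dat.w, Dat.np, Dat.nm, Dat.x, Dat.y, Dat.y', Dat.s, Dat.g, Dat.h, hf, hfa, haf, hfb, hbf] at hii ⊢ <;> grind
    · rcases k' with k' | k' <;> fin_cases j' <;>
      simp [IT, Dat.u, Dat.w, Dat.π, Dat.np, Dat.nm, Dat.x, Dat.y, Dat.y', Dat.s, Dat.g, Dat.h, hf, hfa, haf, hfb, hbf] at hii ⊢ <;> grind
    · simp [IT, Dat.g, hf, hfa, haf, hfb, hbf] at hii ⊢ <;> grind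
    · simp [IT, Dat.g, hf, hfa, haf, hfb, hbf] at hii ⊢
    · simp [IT] at hii
    · simp [IT] at hii
    · simp [IT] at hii
  · rcases i' with ⟨k', j'⟩ | ⟨k', j'⟩ | k' | k' | ⟨k', j'⟩ | k' | ⟨k', j'⟩
    · rcases k' with k' | k' <;> fin_cases j' <;>
      simp [IT, Dat.u, Dat.w, Dat.np, Dat.nm, Dat.x, Dat.y, Dat.y', Dat.s, Dat.g, Dat.h, hf, hfa, haf, hfb, hbf] at hii ⊢
    · rcases k' with k' | k' <;> fin_cases j' <;>
      simp [IT, Dat.u, Dat.w, Dat.π, Dat.np, Dat.nm, Dat.x, Dat.y, Dat.y', Dat.s, Dat.g, Dat.h, hf, hfa, haf, hfb, hbf] at hii ⊢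
    · simp [IT, Dat.g, hf, hfa, haf, hfb, hbf] at hii ⊢
    · have h1 : k = k' := h.ie (Sum.inl.inj hii)
      rw [h1]
    · simp [IT] at hii
    · simp [IT] at hii
    · simp [IT] at hii
  · rcases i' with ⟨k', j'⟩ | ⟨k', j'⟩ | k' | k' | ⟨k', j'⟩ | k' | ⟨k', j'⟩
    · simp [IT] at hii
    · simp [IT] at hii
    · simp [IT] at hii
    · simp [IT] at hii
    · fin_cases j <;> fin_cases j' <;>
      simp [IT, Dat.x, Dat.y, Dat.y', hf] at hii ⊢ <;> grind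
    · fin_cases j <;>
      simp [IT, Dat.x, Dat.y, Dat.y', hf, hfa, haf] at hii ⊢
    · exact absurd (Prod.ext_iff.1 (Sum.inr.inj hii)).2 (hcg _ _)
  · rcases i' with ⟨k', j'⟩ | ⟨k', j'⟩ | k' | k' | ⟨k', j'⟩ | k' | ⟨k', j'⟩
    · simp [IT] at hii
    · simp [IT] at hii
    · simp [IT] at hii
    · simp [IT] at hii
    · fin_cases j' <;>
      simp [IT, Dat.x, Dat.y, Dat.y', hf, hfa, haf] at hii ⊢
    · have h1 : k = k' := h.ip (Sum.inr.inj hii)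
      rw [h1]
    · exact absurd (Prod.ext_iff.1 (Sum.inr.inj hii)).2 (hcg _ _)
  · rcases i' with ⟨k', j'⟩ | ⟨k', j'⟩ | k' | k' | ⟨k', j'⟩ | k' | ⟨k', j'⟩
    · simp [IT] at hii
    · simp [IT] at hii
    · simp [IT] at hii
    · simp [IT] at hii
    · exact absurd (Prod.ext_iff.1 (Sum.inr.inj hii)).2 (hgc _ _)
    · exact absurd (Prod.ext_iff.1 (Sum.inr.inj hii)).2 (hgc _ _)
    · have h1 : k = k' := h.ig (Prod.ext_iff.1 (Sum.inr.inj hii)).2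
      subst h1
      fin_cases j <;> fin_cases j' <;>
      simp [IT, Dat.s, Dat.g, Dat.h, hf, hfa, haf, hfb, hbf, hlp, hlp'] at hii ⊢

theorem uw_ne {W : Finset V} {Γ : Finset C} {d : Dat V C K} (h : Ok W Γ d)
    (o : (K ⊕ K) × Fin 4) : d.u o ≠ d.w o := by
  have hf : ∀ i j, d.f i = d.f j ↔ i = j := fun i j => h.jf.eq_iff
  have hfa : ∀ i k, d.f i ≠ d.a k := fun i k e => h.fW i (e ▸ h.aW k)
  have haf : ∀ i k, d.a k ≠ d.f i := fun i k e => h.fW i (e ▸ h.aW k)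
  have hfb : ∀ i k, d.f i ≠ d.b k := fun i k e => h.fW i (e ▸ h.bW k)
  rcases o with ⟨k | k, j⟩ <;> fin_cases j <;>
    simp [Dat.u, Dat.w, Dat.np, Dat.nm, Dat.x, Dat.y, Dat.y', Dat.s, Dat.g, Dat.h, hf, hfa, haf, hfb]

theorem uw_ne' {W : Finset V} {Γ : Finset C} {d : Dat V C K} (h : Ok W Γ d)
    (o : (K ⊕ K) × Fin 4) : d.u o ≠ d.w (d.π o) := by
  have hf : ∀ i j, d.f i = d.f j ↔ i = j := fun i j => h.jf.eq_iff
  have hfa : ∀ i k, d.f i ≠ d.a k := fun i k e => h.fW i (e ▸ h.aW k)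
  have haf : ∀ i k, d.a k ≠ d.f i := fun i k e => h.fW i (e ▸ h.aW k)
  have hfb : ∀ i k, d.f i ≠ d.b k := fun i k e => h.fW i (e ▸ h.bW k)
  rcases o with ⟨k | k, j⟩ <;> fin_cases j <;>
    simp [Dat.u, Dat.w, Dat.π, Dat.np, Dat.nm, Dat.x, Dat.y, Dat.y', Dat.s, Dat.g, Dat.h, hf, hfa, haf, hfb]

end TFB
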