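import Mathlib
import Pool.Agent.TFA.Tau
import Pool.Agent.TFB.Defs

/-!
TFB/Lab (difficulty 2). Colour-preserving bijection of the requests and the pairs.
Proof: `TFA.tau_fib` (for `f : A → X`, `g : B → X` with equal fibre cards there is `φ : A ≃ B` with
`g (φ a) = f a`) with `A = {r // r ∈ Q}`, `f r = r.1.1`, `B = {p // p ∈ P}`, `g p = p.1.2`; the fibre
cards are the cards of the filters (`Finset.card_bij`/`Fintype.card_subtype`/`Finset.card_attach`-type
arguments, or `Finset.filter_attach`/`Finset.card_map`). `v r := (φ r).1.1`; then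
`(v r, r.1.1) = (φ r).1`.
-/

set_option autoImplicit false

namespace TFB

open Finset TFA

variable {V C : Type} [DecidableEq V] [DecidableEq C]

theorem lab_card {A : Type} [DecidableEq A] (S : Finset A) (p : A → Prop) [DecidablePred p] :
    (univ.filter (fun a : {x // x ∈ S} => p a.1)).card = (S.filter p).card := by
  refine card_bij (fun a _ => a.1) ?_ ?_ ?_
  · intro a ha
    rw [mem_filter] at ha ⊢
    exact ⟨a.2, ha.2⟩
  · intro a _ b _ h
    exact Subtype.ext h
  · intro b hb
    rw [mem_filter] at hb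
    exact ⟨⟨b, hb.1⟩, mem_filter.2 ⟨mem_univ _, hb.2⟩, rfl⟩

theorem lab (Q : Finset (C × V × V)) (P : Finset (V × C))
    (h : ∀ c, (P.filter (fun p => p.2 = c)).card = (Q.filter (fun r => r.1 = c)).card) :
    ∃ v : {r // r ∈ Q} → V, Function.Injective (fun r : {r // r ∈ Q} => (v r, r.1.1)) ∧
      univ.image (fun r : {r // r ∈ Q} => (v r, r.1.1)) = P := by
  obtain ⟨φ, hφ⟩ := tau_fib (fun r : {r // r ∈ Q} => r.1.1) (fun p : {p // p ∈ P} => p.1.2) (by
    intro c
    rw [lab_card Q (fun r => r.1 = c), lab_card P (fun p => p.2 = c)]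
    exact (h c).symm)
  have e : ∀ r : {r // r ∈ Q}, ((φ r).1.1, r.1.1) = (φ r).1 := by
    intro r
    exact Prod.ext rfl (hφ r).symm
  refine ⟨fun r => (φ r).1.1, ?_, ?_⟩
  · intro r r' hr
    have h1 : ((φ r).1.1, r.1.1) = ((φ r').1.1, r'.1.1) := hr
    rw [e, e] at h1
    exact φ.injective (Subtype.ext h1)
  · ext q
    rw [mem_image]
    constructor
    · rintro ⟨r, _, hr⟩
      have h1 : ((φ r).1.1, r.1.1) = q := hr
      rw [e] at h1
      rw [← h1]
      exact (φ r).2
    · intro hq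
      refine ⟨φ.symm ⟨q, hq⟩, mem_univ _, ?_⟩
      change ((φ (φ.symm ⟨q, hq⟩)).1.1, (φ.symm ⟨q, hq⟩).1.1) = q
      rw [e, Equiv.apply_symm_apply]

end TFB
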