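import Mathlib
import Pool.Agent.TFB.Defs

/-!
TFB/Pth (difficulty 2). Explicit small open paths and unit links as item sets.
Proof. `IsPath s c a b q`: `1 ≤ s ∧ ∃ z : ℕ → V, InjOn z (Iio s) ∧ z 0 = a ∧ z (s-1) = b ∧ q = pit s z c`,
`pit s z c = (range (s-1)).image (inl s(z i, z (i+1))) ∪ (range s).image (inr (z i, c))`.
`pth1`: `z = fun _ => x`. `pth3`, `pth5`: `z i = ![p0, ...] i` for small `i` (say
`fun i => if i = 0 then p0 else if i = 1 then p1 else ...`); injectivity by `interval_cases` from the
inequalities; the set equality by `ext` and `simp` (`Finset.range_succ`, `image_insert`) / `tauto`.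
`lk1`: `IsLink 1 c a b g` with `x = y = x`, `q = {inr (x, c)}` (`pth1`); `(a, c) ∉ {(x, c)}` as `a ≠ x`.
`lk_symm`: `{inl s(a, x), inl s(x, b)} = {inl s(b, x), inl s(x, a)}` (`Sym2.eq_swap`); it is enough to
get it for the concrete sets via `lk1`, so it is stated only for them.
-/

set_option autoImplicit false

namespace TFB

open Finset TFA
open Pool.Agent.OBX (IsPath IsLink Mem Real RealL pit ends rends Sep)

variable {V C : Type} [DecidableEq V] [DecidableEq C]

theorem pth1 (c : C) (x : V) : IsPath 1 c x x ({Sum.inr (x, c)} : Finset (Item V C)) := by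
  refine ⟨le_rfl, fun _ => x, ?_, rfl, rfl, ?_⟩
  · intro i hi j hj _
    simp only [Set.mem_Iio, Nat.lt_one_iff] at hi hj
    rw [hi, hj]
  · unfold pit
    simp

theorem pth3 (c : C) (p0 p1 p2 : V) (h01 : p0 ≠ p1) (h02 : p0 ≠ p2) (h12 : p1 ≠ p2) :
    IsPath 3 c p0 p2 ({Sum.inl s(p0, p1), Sum.inl s(p1, p2), Sum.inr (p0, c), Sum.inr (p1, c),
      Sum.inr (p2, c)} : Finset (Item V C)) := by
  refine ⟨by norm_num, fun i => if i = 0 then p0 else if i = 1 then p1 else p2, ?_, ?_, ?_, ?_⟩
  · intro i hi j hj h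
    simp only [Set.mem_Iio] at hi hj
    have h01' := h01.symm
    have h02' := h02.symm
    have h12' := h12.symm
    interval_cases i <;> interval_cases j <;> simp_all
  · simp
  · simp
  · unfold pit
    ext t
    simp only [mem_union, mem_image, mem_range, mem_insert, mem_singleton]
    constructor
    · rintro (h | h | h | h | h)
      · exact Or.inl ⟨0, by norm_num, by simp [h]⟩
      · exact Or.inl ⟨1, by norm_num, by simp [h]⟩
      · exact Or.inr ⟨0, by norm_num, by simp [h]⟩
      · exact Or.inr ⟨1, by norm_num, by simp [h]⟩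
      · exact Or.inr ⟨2, by norm_num, by simp [h]⟩
    · rintro (⟨i, hi, h⟩ | ⟨i, hi, h⟩)
      · have hi' : i < 2 := hi
        interval_cases i <;> simp at h <;> simp [← h]
      · interval_cases i <;> simp at h <;> simp [← h]

theorem pth5 (c : C) (p0 p1 p2 p3 p4 : V) (h01 : p0 ≠ p1) (h02 : p0 ≠ p2) (h03 : p0 ≠ p3)
    (h04 : p0 ≠ p4) (h12 : p1 ≠ p2) (h13 : p1 ≠ p3) (h14 : p1 ≠ p4) (h23 : p2 ≠ p3)
    (h24 : p2 ≠ p4) (h34 : p3 ≠ p4) :
    IsPath 5 c p0 p4 ({Sum.inl s(p0, p1), Sum.inl s(p1, p2), Sum.inl s(p2, p3), Sum.inl s(p3, p4),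
      Sum.inr (p0, c), Sum.inr (p1, c), Sum.inr (p2, c), Sum.inr (p3, c), Sum.inr (p4, c)} :
      Finset (Item V C)) := by
  refine ⟨by norm_num, fun i => if i = 0 then p0 else if i = 1 then p1 else if i = 2 then p2 else
    if i = 3 then p3 else p4, ?_, ?_, ?_, ?_⟩
  · intro i hi j hj h
    simp only [Set.mem_Iio] at hi hj
    have h01' := h01.symm
    have h02' := h02.symm
    have h03' := h03.symm
    have h04' := h04.symm
    have h12' := h12.symm
    have h13' := h13.symm
    have h14' := h14.symm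
    have h23' := h23.symm
    have h24' := h24.symm
    have h34' := h34.symm
    interval_cases i <;> interval_cases j <;> simp_all
  · simp
  · simp
  · unfold pit
    ext t
    simp only [mem_union, mem_image, mem_range, mem_insert, mem_singleton]
    constructor
    · rintro (h | h | h | h | h | h | h | h | h)
      · exact Or.inl ⟨0, by norm_num, by simp [h]⟩
      · exact Or.inl ⟨1, by norm_num, by simp [h]⟩
      · exact Or.inl ⟨2, by norm_num, by simp [h]⟩
      · exact Or.inl ⟨3, by norm_num, by simp [h]⟩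
      · exact Or.inr ⟨0, by norm_num, by simp [h]⟩
      · exact Or.inr ⟨1, by norm_num, by simp [h]⟩
      · exact Or.inr ⟨2, by norm_num, by simp [h]⟩
      · exact Or.inr ⟨3, by norm_num, by simp [h]⟩
      · exact Or.inr ⟨4, by norm_num, by simp [h]⟩
    · rintro (⟨i, hi, h⟩ | ⟨i, hi, h⟩)
      · have hi' : i < 4 := hi
        interval_cases i <;> simp at h <;> simp [← h]
      · interval_cases i <;> simp at h <;> simp [← h]

theorem lk1 (c : C) (a b x : V) (hab : a ≠ b) (ha : a ≠ x) (hb : b ≠ x) :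
    IsLink 1 c a b ({Sum.inl s(a, x), Sum.inl s(x, b), Sum.inr (x, c)} : Finset (Item V C)) := by
  refine ⟨hab, x, x, {Sum.inr (x, c)}, pth1 c x, ?_, ?_, ?_⟩
  · rw [mem_singleton]
    intro h
    exact ha (by simpa using h)
  · rw [mem_singleton]
    intro h
    exact hb (by simpa using h)
  · ext t
    simp only [mem_union, mem_insert, mem_singleton]
    tauto

end TFB
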