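import Mathlib
import Pool.Agent.TFB.Defs

/-!
TFB/RmU (difficulty 2). Simple facts on `RM` and `Mk`.
Proof. `rm_app`: induction on `RM D S` (`List.cons_append`, associativity of `∪`, the new path is
disjoint from `S ∪ S'`). `rm_map`: induction on the list `l` (`toFinset_cons`, `biUnion_insert`).
`rm_one`: `RM.cons` with `RM.nil` (`union_empty`).
`mk_app`: `List.pairwise_append`; across the two lists: if `p ∈ D`, `q ∈ D'` have the same colour and,
say, `p.2.1 = q.2.1`, then the pair `(p.2.1, p.1)` is in `T` and in `T'`, against disjointness (all four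
cases in the same way). `mk_map`: `List.pairwise_map` and `List.Nodup` (`= Pairwise (≠)`,
`List.Pairwise.imp`/`List.Nodup.pairwise_of_forall_ne`).
-/

set_option autoImplicit false

namespace TFB

open Finset TFA
open Pool.Agent.OBX (IsPath IsLink Mem Real RealL pit ends rends Sep)

variable {V C : Type} [DecidableEq V] [DecidableEq C]

theorem rm_app {D D' : List (C × Mem V)} {S S' : Finset (Item V C)} (h : RM D S) (h' : RM D' S')
    (hd : Disjoint S S') : RM (D ++ D') (S ∪ S') := by
  induction h with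
  | nil =>
    rw [List.nil_append, empty_union]
    exact h'
  | cons c m D q S hq _ hqS ih =>
    rw [disjoint_union_left] at hd
    rw [List.cons_append, union_assoc]
    exact RM.cons c m _ q _ hq (ih hd.2) (disjoint_union_right.mpr ⟨hqS, hd.1⟩)

theorem rm_one {c : C} {m : Mem V} {q : Finset (Item V C)} (h : IsPath m.2.2 c m.1 m.2.1 q) :
    RM [(c, m)] q := by
  have h1 := RM.cons c m [] q ∅ h RM.nil (disjoint_empty_right _)
  rwa [union_empty] at h1

theorem rm_map {ι : Type} [DecidableEq ι] (l : List ι) (hl : l.Nodup) (m : ι → C × Mem V)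
    (q : ι → Finset (Item V C)) (hq : ∀ i ∈ l, IsPath (m i).2.2.2 (m i).1 (m i).2.1 (m i).2.2.1 (q i))
    (hd : ∀ i ∈ l, ∀ j ∈ l, i ≠ j → Disjoint (q i) (q j)) :
    RM (l.map m) (l.toFinset.biUnion q) := by
  induction l with
  | nil =>
    rw [List.map_nil, List.toFinset_nil, biUnion_empty]
    exact RM.nil
  | cons a l ih =>
    rw [List.map_cons, List.toFinset_cons, biUnion_insert]
    rw [List.nodup_cons] at hl
    refine RM.cons (m a).1 (m a).2 _ (q a) _ (hq a List.mem_cons_self)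
      (ih hl.2 (fun i hi => hq i (List.mem_cons_of_mem _ hi))
        (fun i hi j hj => hd i (List.mem_cons_of_mem _ hi) j (List.mem_cons_of_mem _ hj))) ?_
    rw [disjoint_biUnion_right]
    intro j hj
    rw [List.mem_toFinset] at hj
    exact hd a List.mem_cons_self j (List.mem_cons_of_mem _ hj) (by rintro rfl; exact hl.1 hj)

theorem mk_nil (T : Finset (Item V C)) : Mk ([] : List (C × Mem V)) T :=
  ⟨fun p hp => absurd hp List.not_mem_nil, List.Pairwise.nil⟩

theorem mk_mono {D : List (C × Mem V)} {T T' : Finset (Item V C)} (h : Mk D T) (hT : T ⊆ T') :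
    Mk D T' :=
  ⟨fun p hp => ⟨(h.1 p hp).1, (h.1 p hp).2.1, (h.1 p hp).2.2.1, hT (h.1 p hp).2.2.2.1,
    hT (h.1 p hp).2.2.2.2⟩, h.2⟩

theorem mk_app {D D' : List (C × Mem V)} {T T' : Finset (Item V C)} (h : Mk D T) (h' : Mk D' T')
    (hd : Disjoint T T') : Mk (D ++ D') (T ∪ T') := by
  refine ⟨?_, ?_⟩
  · intro p hp
    rw [List.mem_append] at hp
    rcases hp with hp | hp
    · exact (mk_mono h subset_union_left).1 p hp
    · exact (mk_mono h' subset_union_right).1 p hp
  · rw [List.pairwise_append]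
    refine ⟨h.2, h'.2, ?_⟩
    intro p hp r hr hpr
    obtain ⟨-, -, -, a1, a2⟩ := h.1 p hp
    obtain ⟨-, -, -, b1, b2⟩ := h'.1 r hr
    rw [← hpr] at b1 b2
    have key : ∀ u v : V, (Sum.inr (u, p.1) : Item V C) ∈ T → (Sum.inr (v, p.1) : Item V C) ∈ T' →
        u ≠ v := by
      rintro u v hu hv rfl
      exact (Finset.disjoint_left.1 hd) hu hv
    exact ⟨key _ _ a1 b1, key _ _ a1 b2, key _ _ a2 b1, key _ _ a2 b2⟩

theorem mk_map {ι : Type} (l : List ι) (hl : l.Nodup) (m : ι → C × Mem V)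
    (T : Finset (Item V C))
    (hm : ∀ i ∈ l, (m i).2.1 ≠ (m i).2.2.1 ∧ 2 ≤ (m i).2.2.2 ∧ (m i).2.2.2 ≤ 6 ∧
      (Sum.inr ((m i).2.1, (m i).1) : Item V C) ∈ T ∧ (Sum.inr ((m i).2.2.1, (m i).1) : Item V C) ∈ T)
    (hs : ∀ i ∈ l, ∀ j ∈ l, i ≠ j → sp (m i) (m j)) : Mk (l.map m) T := by
  refine ⟨?_, ?_⟩
  · intro p hp
    rw [List.mem_map] at hp
    obtain ⟨i, hi, rfl⟩ := hp
    exact hm i hi
  · rw [List.pairwise_map]
    exact hl.pairwise_of_forall_ne hs

end TFB
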