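import Mathlib
import Pool.Agent.TFB.Defs
import Pool.Agent.TFB.Pth
import Pool.Agent.TFB.RmU

/-!
TFB/PsgB (difficulty 2). The switch gadget: a new vertex `m` adjacent to `r` and `s`, a new colour `a`,
member `(y, z, 5)`: the path `y r m s z` (state with `{r y, s z}`) or `y s m r z` (state with
`{s y, r z}`); `T = {r m, s m} ∪ {(y,a), (r,a), (m,a), (s,a), (z,a)}`.
Proof. `hG {r, s} W` gives `m ∉ W` with `G.Adj m r`, `G.Adj m s`; `hC Γ` gives `a ∉ Γ`. `W' = insert m W`,
`Γ' = insert a Γ`. `Step G W Γ W' Γ' T`: edges contain `m`, pairs have colour `a`. `Mk [(a, y, z, 5)] T`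
clear. `RM`: `rm_one` with `pth5` and the set equality
`sw C r s y z ∪ T = {y r, r m, m s, s z, (y,a), (r,a), (m,a), (s,a), (z,a)}` (`ext`, `Sym2.eq_swap`), all
five vertices are different (`m ∉ W`). The second state: exchange `r` and `s` (`pth5` for `y s m r z`).
`T.card ≤ 7`: `card_insert_le` / `card_le_seven`-like repeated.
-/

set_option autoImplicit false

namespace TFB

open Finset TFA
open Pool.Agent.OBX (IsPath IsLink Mem Real RealL pit ends rends Sep)

variable {V C : Type} [DecidableEq V] [DecidableEq C]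

theorem psgB {G : SimpleGraph V} {k kc : ℕ} (hG : Host G k) (hC : HostC C kc)
    (W : Finset V) (Γ : Finset C) (hW : W.card + 1 ≤ k) (hΓ : Γ.card + 1 ≤ kc)
    (r s y z : V) (hr : r ∈ W) (hs : s ∈ W) (hy : y ∈ W) (hz : z ∈ W)
    (hrs : r ≠ s) (hry : r ≠ y) (hrz : r ≠ z) (hsy : s ≠ y) (hsz : s ≠ z) (hyz : y ≠ z) :
    ∃ (W' : Finset V) (Γ' : Finset C) (T : Finset (Item V C)) (D : List (C × Mem V)),
      TFA.Step G W Γ W' Γ' T ∧
      W'.card ≤ W.card + 1 ∧ Γ'.card ≤ Γ.card + 1 ∧ T.card ≤ 7 ∧ D.length ≤ 1 ∧ Mk D T ∧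
      RM D (sw C r s y z ∪ T) ∧ RM D (sw C s r y z ∪ T) := by
  obtain ⟨m, hmW, hm⟩ := hG {r, s} W (Finset.card_le_two.trans (by norm_num)) (by omega)
  obtain ⟨a, ha⟩ := hC Γ (by omega)
  have hmr : G.Adj m r := hm r (by simp)
  have hms : G.Adj m s := hm s (by simp)
  have nr : r ≠ m := fun h => hmW (h ▸ hr)
  have ns : s ≠ m := fun h => hmW (h ▸ hs)
  have ny : y ≠ m := fun h => hmW (h ▸ hy)
  have nz : z ≠ m := fun h => hmW (h ▸ hz)
  have hmem : ∀ i : Item V C, i ∈ ({Sum.inl s(r, m), Sum.inl s(s, m), Sum.inr (y, a), Sum.inr (r, a),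
      Sum.inr (m, a), Sum.inr (s, a), Sum.inr (z, a)} : Finset (Item V C)) →
      i = Sum.inl s(r, m) ∨ i = Sum.inl s(s, m) ∨ i = Sum.inr (y, a) ∨ i = Sum.inr (r, a) ∨
      i = Sum.inr (m, a) ∨ i = Sum.inr (s, a) ∨ i = Sum.inr (z, a) := by
    intro i hi
    simpa only [mem_insert, mem_singleton] using hi
  refine ⟨insert m W, insert a Γ, {Sum.inl s(r, m), Sum.inl s(s, m), Sum.inr (y, a), Sum.inr (r, a),
      Sum.inr (m, a), Sum.inr (s, a), Sum.inr (z, a)}, [(a, (y, z, 5))], ?_, card_insert_le _ _,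
    card_insert_le _ _, ?_, le_rfl, ?_, ?_, ?_⟩
  · refine ⟨subset_insert _ _, subset_insert _ _, ?_, ?_, ?_⟩
    · intro i hi
      have hW' : ∀ v, v ∈ W → v ∈ insert m W := fun v hv => mem_insert_of_mem hv
      have hm' : m ∈ insert m W := mem_insert_self _ _
      have ha' : a ∈ insert a Γ := mem_insert_self _ _
      rcases hmem i hi with rfl | rfl | rfl | rfl | rfl | rfl | rfl
      · intro x hx
        rcases Sym2.mem_iff.1 hx with rfl | rfl
        · exact hW' _ hr
        · exact hm'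
      · intro x hx
        rcases Sym2.mem_iff.1 hx with rfl | rfl
        · exact hW' _ hs
        · exact hm'
      · exact ⟨hW' _ hy, ha'⟩
      · exact ⟨hW' _ hr, ha'⟩
      · exact ⟨hm', ha'⟩
      · exact ⟨hW' _ hs, ha'⟩
      · exact ⟨hW' _ hz, ha'⟩
    · intro i hi hin
      rcases hmem i hi with rfl | rfl | rfl | rfl | rfl | rfl | rfl
      · exact hmW (hin m (Sym2.mem_mk_right _ _))
      · exact hmW (hin m (Sym2.mem_mk_right _ _))
      · exact ha hin.2
      · exact ha hin.2
      · exact ha hin.2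
      · exact ha hin.2
      · exact ha hin.2
    · intro e he
      rcases hmem _ he with h | h | h | h | h | h | h
      · rw [Sum.inl.inj h]
        exact hmr.symm
      · rw [Sum.inl.inj h]
        exact hms.symm
      · exact absurd h (by simp)
      · exact absurd h (by simp)
      · exact absurd h (by simp)
      · exact absurd h (by simp)
      · exact absurd h (by simp)
  · refine (card_insert_le _ _).trans (Nat.succ_le_succ ((card_insert_le _ _).trans
      (Nat.succ_le_succ ((card_insert_le _ _).trans (Nat.succ_le_succ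
      ((card_insert_le _ _).trans (Nat.succ_le_succ ((card_insert_le _ _).trans
      (Nat.succ_le_succ ((card_insert_le _ _).trans (Nat.succ_le_succ ?_)))))))))))
    rw [card_singleton]
  · refine ⟨?_, List.pairwise_singleton _ _⟩
    intro p hp
    rw [List.mem_singleton] at hp
    subst hp
    exact ⟨hyz, by norm_num, by norm_num, by simp, by simp⟩
  · have h1 := pth5 a y r m s z hry.symm ny hsy.symm hyz nr hrs hrz ns.symm nz.symm hsz
    have h2 : sw C r s y z ∪ {Sum.inl s(r, m), Sum.inl s(s, m), Sum.inr (y, a), Sum.inr (r, a),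
        Sum.inr (m, a), Sum.inr (s, a), Sum.inr (z, a)} = ({Sum.inl s(y, r), Sum.inl s(r, m),
        Sum.inl s(m, s), Sum.inl s(s, z), Sum.inr (y, a), Sum.inr (r, a), Sum.inr (m, a),
        Sum.inr (s, a), Sum.inr (z, a)} : Finset (Item V C)) := by
      rw [Sym2.eq_swap (a := y) (b := r), Sym2.eq_swap (a := m) (b := s)]
      ext i
      simp only [sw, mem_union, mem_insert, mem_singleton]
      tauto
    rw [h2]
    exact rm_one (m := (y, z, 5)) h1
  · have h1 := pth5 a y s m r z hsy.symm ny hry.symm hyz ns hrs.symm hsz nr.symm nz.symm hrz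
    have h2 : sw C s r y z ∪ {Sum.inl s(r, m), Sum.inl s(s, m), Sum.inr (y, a), Sum.inr (r, a),
        Sum.inr (m, a), Sum.inr (s, a), Sum.inr (z, a)} = ({Sum.inl s(y, s), Sum.inl s(s, m),
        Sum.inl s(m, r), Sum.inl s(r, z), Sum.inr (y, a), Sum.inr (s, a), Sum.inr (m, a),
        Sum.inr (r, a), Sum.inr (z, a)} : Finset (Item V C)) := by
      rw [Sym2.eq_swap (a := y) (b := s), Sym2.eq_swap (a := m) (b := r)]
      ext i
      simp only [sw, mem_union, mem_insert, mem_singleton]
      tauto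
    rw [h2]
    exact rm_one (m := (y, z, 5)) h1

end TFB
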