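import Mathlib
import Pool.Agent.TFA.Fam
import Pool.Agent.TFB.Defs
import Pool.Agent.TFB.RmU
import Pool.Agent.TFB.PsgB

/-!
TFB/FamB (difficulty 2). Many switches simultaneously: adaptation of TFA/Fam (`TFA.fam`, file
Pool/Agent/TFA/Fam.lean in /team-store/tfa_all.tgz): replace `Dc m _` by `RM D _`, `psg` by `psgB`.
Proof: `Finset.induction_on I`. `∅`: `W, Γ, ∅, []`. Step: as in `TFA.fam`; `T = T1 ∪ T2`,
`D := D2 ++ D1` (`D2` from `psgB` for the new `i`, `D1` from the induction hypothesis);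
`(insert i I).biUnion E ∪ (T1 ∪ T2) = (E i ∪ T2) ∪ (I.biUnion E ∪ T1)` and `rm_app`; `Mk`: `mk_app`
(`T2`, `T1` are disjoint: items of `T1` are `In W1 Γ1`, those of `T2` are not). Reuse `TFA.fam_mono`,
`TFA.fam_sw`.
-/

set_option autoImplicit false

namespace TFB

open Finset TFA
open Pool.Agent.OBX (IsPath IsLink Mem Real RealL pit ends rends Sep)

variable {V C : Type} [DecidableEq V] [DecidableEq C]

/-- one step of the decomposition -/
theorem famB_step {ι : Type} [DecidableEq ι] {W W1 : Finset V} {Γ Γ1 : Finset C} {I : Finset ι} {i : ι}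
    (hi : i ∉ I) (E : ι → Finset (Item V C)) {T1 T2 : Finset (Item V C)} {D1 D2 : List (C × Mem V)} (hWs : W ⊆ W1)
    (hΓs : Γ ⊆ Γ1)
    (hE : ∀ j ∈ insert i I, ∀ x ∈ E j, In W Γ x) (hd : ∀ j ∈ insert i I, ∀ l ∈ insert i I, j ≠ l → Disjoint (E j) (E l))
    (hin : ∀ x ∈ T1, In W1 Γ1 x) (hnew : ∀ x ∈ T1, ¬ In W Γ x) (hnew2 : ∀ x ∈ T2, ¬ In W1 Γ1 x)
    (hD1 : RM D1 (I.biUnion E ∪ T1)) (hD2 : RM D2 (E i ∪ T2)) :
    RM (D2 ++ D1) ((insert i I).biUnion E ∪ (T1 ∪ T2)) := by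
  have he : (insert i I).biUnion E ∪ (T1 ∪ T2) = (E i ∪ T2) ∪ (I.biUnion E ∪ T1) := by
    rw [Finset.biUnion_insert]
    ext x
    simp only [Finset.mem_union]
    tauto
  rw [he]
  refine rm_app hD2 hD1 ?_
  rw [Finset.disjoint_left]
  intro x hx hx'
  rw [Finset.mem_union] at hx hx'
  rw [Finset.mem_biUnion] at hx'
  rcases hx with hx | hx
  · rcases hx' with ⟨j, hj, hxj⟩ | hx'
    · have hne : i ≠ j := fun h => hi (h ▸ hj)
      exact Finset.disjoint_left.1 (hd i (Finset.mem_insert_self _ _) j (Finset.mem_insert_of_mem hj) hne) hx hxj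
    · exact hnew x hx' (hE i (Finset.mem_insert_self _ _) x hx)
  · rcases hx' with ⟨j, hj, hxj⟩ | hx'
    · exact hnew2 x hx (fam_mono hWs hΓs (hE j (Finset.mem_insert_of_mem hj) x hxj))
    · exact hnew2 x hx (hin x hx')

theorem famB {G : SimpleGraph V} {k kc : ℕ} (hG : Host G k) (hC : HostC C kc)
    (W : Finset V) (Γ : Finset C) {ι : Type} [DecidableEq ι] (I : Finset ι) (r s y z : ι → V)
    (hW : W.card + I.card ≤ k) (hΓ : Γ.card + I.card ≤ kc)
    (hin : ∀ i ∈ I, r i ∈ W ∧ s i ∈ W ∧ y i ∈ W ∧ z i ∈ W)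
    (hne : ∀ i ∈ I, r i ≠ s i ∧ r i ≠ y i ∧ r i ≠ z i ∧ s i ≠ y i ∧ s i ≠ z i ∧ y i ≠ z i)
    (h1 : ∀ i ∈ I, ∀ j ∈ I, i ≠ j →
      Disjoint (sw C (r i) (s i) (y i) (z i)) (sw C (r j) (s j) (y j) (z j)))
    (h2 : ∀ i ∈ I, ∀ j ∈ I, i ≠ j →
      Disjoint (sw C (s i) (r i) (y i) (z i)) (sw C (s j) (r j) (y j) (z j))) :
    ∃ (W' : Finset V) (Γ' : Finset C) (T : Finset (Item V C)) (D : List (C × Mem V)),
      TFA.Step G W Γ W' Γ' T ∧
      W'.card ≤ W.card + I.card ∧ Γ'.card ≤ Γ.card + I.card ∧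
      T.card ≤ 7 * I.card ∧ D.length ≤ I.card ∧ Mk D T ∧
      RM D (I.biUnion (fun i => sw C (r i) (s i) (y i) (z i)) ∪ T) ∧
      RM D (I.biUnion (fun i => sw C (s i) (r i) (y i) (z i)) ∪ T) := by
  induction I using Finset.induction_on with
  | empty =>
    refine ⟨W, Γ, ∅, [], ⟨Finset.Subset.refl _, Finset.Subset.refl _, ?_, ?_, ?_⟩, ?_, ?_, ?_, ?_, ?_, ?_, ?_⟩
    · intro i hi
      exact absurd hi (Finset.notMem_empty _)
    · intro i hi
      exact absurd hi (Finset.notMem_empty _)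
    · intro e he
      exact absurd he (Finset.notMem_empty _)
    · simp
    · simp
    · simp
    · simp
    · exact mk_nil _
    · rw [Finset.biUnion_empty, Finset.empty_union]
      exact RM.nil
    · rw [Finset.biUnion_empty, Finset.empty_union]
      exact RM.nil
  | insert i I hi ih =>
    rw [Finset.card_insert_of_notMem hi] at hW hΓ ⊢
    obtain ⟨W1, Γ1, T1, D1, hS1, hcW1, hcΓ1, hcT1, hl1, hM1, hD1, hD1'⟩ := ih (by omega) (by omega)
      (fun j hj => hin j (Finset.mem_insert_of_mem hj)) (fun j hj => hne j (Finset.mem_insert_of_mem hj))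
      (fun j hj l hl => h1 j (Finset.mem_insert_of_mem hj) l (Finset.mem_insert_of_mem hl))
      (fun j hj l hl => h2 j (Finset.mem_insert_of_mem hj) l (Finset.mem_insert_of_mem hl))
    obtain ⟨m1, m2, m3, m4⟩ := hin i (Finset.mem_insert_self _ _)
    obtain ⟨n1, n2, n3, n4, n5, n6⟩ := hne i (Finset.mem_insert_self _ _)
    obtain ⟨W2, Γ2, T2, D2, hS2, hcW2, hcΓ2, hcT2, hl2, hM2, hD2, hD2'⟩ := psgB hG hC W1 Γ1 (by omega) (by omega)
      (r i) (s i) (y i) (z i) (hS1.hW m1) (hS1.hW m2) (hS1.hW m3) (hS1.hW m4) n1 n2 n3 n4 n5 n6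
    refine ⟨W2, Γ2, T1 ∪ T2, D2 ++ D1, ⟨hS1.hW.trans hS2.hW, hS1.hΓ.trans hS2.hΓ, ?_, ?_, ?_⟩, by omega, by omega,
      ?_, ?_, ?_, ?_, ?_⟩
    · intro x hx
      rcases Finset.mem_union.1 hx with hx | hx
      · exact fam_mono hS2.hW hS2.hΓ (hS1.hin x hx)
      · exact hS2.hin x hx
    · intro x hx
      rcases Finset.mem_union.1 hx with hx | hx
      · exact hS1.hnew x hx
      · exact fun h => hS2.hnew x hx (fam_mono hS1.hW hS1.hΓ h)
    · intro e he
      rcases Finset.mem_union.1 he with he | he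
      · exact hS1.hG e he
      · exact hS2.hG e he
    · have hu := Finset.card_union_le T1 T2
      omega
    · rw [List.length_append]
      omega
    · have hdis : Disjoint T2 T1 := by
        rw [Finset.disjoint_left]
        intro x hx hx'
        exact hS2.hnew x hx (hS1.hin x hx')
      have hM := mk_app hM2 hM1 hdis
      rwa [Finset.union_comm T2 T1] at hM
    · exact famB_step (E := fun i => sw C (r i) (s i) (y i) (z i)) hi hS1.hW hS1.hΓ
        (fun j hj x hx => fam_sw Γ (hin j hj).1 (hin j hj).2.1 (hin j hj).2.2.1 (hin j hj).2.2.2 hx) h1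
        hS1.hin hS1.hnew hS2.hnew hD1 hD2
    · exact famB_step (E := fun i => sw C (s i) (r i) (y i) (z i)) hi hS1.hW hS1.hΓ
        (fun j hj x hx => fam_sw Γ (hin j hj).2.1 (hin j hj).1 (hin j hj).2.2.1 (hin j hj).2.2.2 hx) h2
        hS1.hin hS1.hnew hS2.hnew hD1' hD2'

end TFB
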