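import Mathlib
import Pool.Agent.TFA.Lt
import Pool.Agent.TFB.Defs
import Pool.Agent.TFB.RmU
import Pool.Agent.TFB.FamB

/-!
TFB/LtB (difficulty 2). The long switch: adaptation of TFA/Lt (`TFA.lt`, file Pool/Agent/TFA/Lt.lean in
/team-store/tfa_all.tgz): replace `fam` by `famB` and `Dc m _` by `RM D _`; `TFA.lt_emb`, `TFA.ltA1`,
..., `TFA.ltA4` are used unchanged. The final `T` is `ltX C u w Y Z p π ∪ T1` (`T1`, `D` from `famB`),
`Mk D T` by `mk_mono`, and `image F ∪ (ltX ∪ T1) = (univ.biUnion sw ..) ∪ T1` by `ltA1`, `ltA2`.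
`T.card ≤ 5 N + 7 * 3 N`, `D.length ≤ 3 N`.
-/

set_option autoImplicit false

namespace TFB

open Finset TFA
open Pool.Agent.OBX (IsPath IsLink Mem Real RealL pit ends rends Sep)

variable {V C : Type} [DecidableEq V] [DecidableEq C]

theorem ltB {G : SimpleGraph V} {k kc : ℕ} (hG : Host G k) (hC : HostC C kc)
    (W : Finset V) (Γ : Finset C) {O : Type} [Fintype O] [DecidableEq O] (u w : O → V)
    (π : Equiv.Perm O) (hu : ∀ o, u o ∈ W) (hw : ∀ o, w o ∈ W)
    (huw : ∀ o, u o ≠ w o) (huw' : ∀ o, u o ≠ w (π o))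
    (hA : Function.Injective (fun o => s(u o, w o)))
    (hB : Function.Injective (fun o => s(u o, w (π o))))
    (hAB : ∀ o o', s(u o, w o) ≠ s(u o', w (π o')))
    (hW : W.card + 1 + 5 * Fintype.card O ≤ k) (hΓ : Γ.card + 3 * Fintype.card O ≤ kc) :
    ∃ (W' : Finset V) (Γ' : Finset C) (T : Finset (Item V C)) (D : List (C × Mem V)),
      TFA.Step G W Γ W' Γ' T ∧
      W'.card ≤ W.card + 1 + 5 * Fintype.card O ∧
      Γ'.card ≤ Γ.card + 3 * Fintype.card O ∧ T.card ≤ 26 * Fintype.card O ∧
      D.length ≤ 3 * Fintype.card O ∧ Mk D T ∧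
      RM D (univ.image (fun o => (Sum.inl s(u o, w o) : Item V C)) ∪ T) ∧
      RM D (univ.image (fun o => (Sum.inl s(u o, w (π o)) : Item V C)) ∪ T) := by
  classical
  obtain ⟨p, Y, Z, hpW, hYW, hZW, iY, iZ, YZ, pY, pZ, auY, aZw, aZY, aZY', apY⟩ :=
    lt_emb hG W u w π (by nlinarith)
  have hπ : ∀ o, π o ≠ o := by
    intro o ho
    apply hAB o o
    rw [ho]
  have H : LtH W u w Y Z p π := ⟨hu, hw, hYW, hZW, hpW, iY, iZ, YZ, pY, pZ, huw, huw', hA, hB, hπ⟩
  let W1 : Finset V := W ∪ ({p} ∪ (univ.image Y ∪ univ.image Z))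
  have hWW1 : W ⊆ W1 := Finset.subset_union_left
  have hYW1 : ∀ o, Y o ∈ W1 := fun o => by simp [W1]
  have hZW1 : ∀ o, Z o ∈ W1 := fun o => by simp [W1]
  have hpW1 : p ∈ W1 := by simp [W1]
  have hW1c : W1.card ≤ W.card + 1 + 2 * Fintype.card O := by
    have h1 := Finset.card_union_le W ({p} ∪ (univ.image Y ∪ univ.image Z))
    have h2 := Finset.card_union_le ({p} : Finset V) (univ.image Y ∪ univ.image Z)
    have h3 := Finset.card_union_le (univ.image Y) (univ.image Z)
    have h4 : (univ.image Y).card ≤ Fintype.card O := Finset.card_image_le.trans (by simp)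
    have h5 : (univ.image Z).card ≤ Fintype.card O := Finset.card_image_le.trans (by simp)
    have h6 : ({p} : Finset V).card = 1 := by simp
    show (W ∪ ({p} ∪ (univ.image Y ∪ univ.image Z))).card ≤ _
    omega
  have hIc : (univ : Finset (O × Fin 3)).card = Fintype.card O * 3 := by
    simp
  obtain ⟨W', Γ', T1, D, hS, hW', hΓ', hT1, hDl, hMk, hD1, hD2⟩ := famB hG hC W1 Γ
    (univ : Finset (O × Fin 3)) (lr u Z π) (ls u Z p) (ly w Y π) (lz Y π) (by
      rw [hIc]; nlinarith) (by rw [hIc]; omega) (by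
      rintro ⟨o, i⟩ -
      fin_cases i
      · simp [lr, ls, ly, lz, hWW1 (hu o), hWW1 (hw o), hYW1, hZW1]
      · simp [lr, ls, ly, lz, hWW1 (hu o), hWW1 (hw (π o)), hYW1, hZW1]
      · simp [lr, ls, ly, lz, hYW1, hZW1, hpW1]) (by
      rintro ⟨o, i⟩ -
      have a1 : ∀ o o', u o ≠ Z o' := fun o o' h => hZW o' (h ▸ hu o)
      have a2 : ∀ o o', u o ≠ Y o' := fun o o' h => hYW o' (h ▸ hu o)
      have a3 : ∀ o o', w o ≠ Z o' := fun o o' h => hZW o' (h ▸ hw o)
      have a4 : ∀ o o', w o ≠ Y o' := fun o o' h => hYW o' (h ▸ hw o)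
      fin_cases i
      · simp only [lr, ls, ly, lz]
        exact ⟨a1 _ _, huw _, a2 _ _, (a3 _ _).symm, (YZ _ _).symm, a4 _ _⟩
      · simp only [lr, ls, ly, lz]
        exact ⟨(a1 _ _).symm, (a3 _ _).symm, (YZ _ _).symm, huw' _, a2 _ _, a4 _ _⟩
      · simp only [lr, ls, ly, lz]
        exact ⟨(pZ _).symm, (YZ _ _).symm, (YZ _ _).symm, pY _, pY _,
          fun h => hπ o (iY h).symm⟩) (fun i _ j _ hij => ltA3 H i j hij)
      (fun i _ j _ hij => ltA4 H i j hij)
  rw [ltA1, Finset.union_assoc] at hD1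
  rw [ltA2, Finset.union_assoc] at hD2
  refine ⟨W', Γ', ltX C u w Y Z p π ∪ T1, D, ?_, ?_, ?_, ?_, by rw [hIc] at hDl; omega,
    mk_mono hMk Finset.subset_union_right, hD1, hD2⟩
  · have hW1W' : W1 ⊆ W' := hS.hW
    refine ⟨hWW1.trans hW1W', hS.hΓ, ?_, ?_, ?_⟩
    · intro i hi
      rcases Finset.mem_union.mp hi with hi | hi
      · apply lt_in_mono hW1W' hS.hΓ
        simp only [ltX, Finset.mem_union, Finset.mem_image, Finset.mem_univ, true_and] at hi
        rcases hi with (((⟨o, rfl⟩ | ⟨o, rfl⟩) | ⟨o, rfl⟩) | ⟨o, rfl⟩) | ⟨o, rfl⟩ <;>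
          · intro x hx
            rw [Sym2.mem_iff] at hx
            rcases hx with rfl | rfl <;>
              first
                | exact hWW1 (hu _)
                | exact hWW1 (hw _)
                | exact hYW1 _
                | exact hZW1 _
                | exact hpW1
      · exact hS.hin i hi
    · intro i hi hin
      rcases Finset.mem_union.mp hi with hi | hi
      · simp only [ltX, Finset.mem_union, Finset.mem_image, Finset.mem_univ, true_and] at hi
        rcases hi with (((⟨o, rfl⟩ | ⟨o, rfl⟩) | ⟨o, rfl⟩) | ⟨o, rfl⟩) | ⟨o, rfl⟩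
        · exact hYW o (hin _ (Sym2.mem_mk_right _ _))
        · exact hZW o (hin _ (Sym2.mem_mk_left _ _))
        · exact hYW o (hin _ (Sym2.mem_mk_right _ _))
        · exact hYW o (hin _ (Sym2.mem_mk_right _ _))
        · exact hYW o (hin _ (Sym2.mem_mk_right _ _))
      · exact hS.hnew i hi (lt_in_mono hWW1 (Finset.Subset.refl _) i hin)
    · intro e he
      rcases Finset.mem_union.mp he with he | he
      · simp only [ltX, Finset.mem_union, Finset.mem_image, Finset.mem_univ, true_and,
          Sum.inl.injEq] at he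
        rcases he with (((⟨o, rfl⟩ | ⟨o, rfl⟩) | ⟨o, rfl⟩) | ⟨o, rfl⟩) | ⟨o, rfl⟩
        · exact auY o
        · exact aZw o
        · exact aZY o
        · exact aZY' o
        · exact apY o
      · exact hS.hG e he
  · rw [hIc] at hW'
    nlinarith
  · rw [hIc] at hΓ'
    omega
  · have hX : (ltX C u w Y Z p π).card ≤ 5 * Fintype.card O := by
      unfold ltX
      have c1 : ∀ g : O → Item V C, (univ.image g).card ≤ Fintype.card O := fun g =>
        Finset.card_image_le.trans (by simp)
      refine (Finset.card_union_le _ _).trans ?_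
      have h1 := c1 (fun o => (Sum.inl s(p, Y o) : Item V C))
      have h2 : (univ.image (fun o => (Sum.inl s(u o, Y o) : Item V C)) ∪
          univ.image (fun o => (Sum.inl s(Z o, w o) : Item V C)) ∪
          univ.image (fun o => (Sum.inl s(Z o, Y o) : Item V C)) ∪
          univ.image (fun o => (Sum.inl s(Z (π o), Y o) : Item V C))).card ≤
          4 * Fintype.card O := by
        refine (Finset.card_union_le _ _).trans ?_
        have h3 := c1 (fun o => (Sum.inl s(Z (π o), Y o) : Item V C))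
        have h4 : (univ.image (fun o => (Sum.inl s(u o, Y o) : Item V C)) ∪
            univ.image (fun o => (Sum.inl s(Z o, w o) : Item V C)) ∪
            univ.image (fun o => (Sum.inl s(Z o, Y o) : Item V C))).card ≤
            3 * Fintype.card O := by
          refine (Finset.card_union_le _ _).trans ?_
          have h5 := c1 (fun o => (Sum.inl s(Z o, Y o) : Item V C))
          have h6 := Finset.card_union_le (univ.image (fun o => (Sum.inl s(u o, Y o) : Item V C)))
            (univ.image (fun o => (Sum.inl s(Z o, w o) : Item V C)))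
          have h7 := c1 (fun o => (Sum.inl s(u o, Y o) : Item V C))
          have h8 := c1 (fun o => (Sum.inl s(Z o, w o) : Item V C))
          omega
        omega
      omega
    have h9 := Finset.card_union_le (ltX C u w Y Z p π) T1
    rw [hIc] at hT1
    nlinarith

end TFB
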