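import Mathlib
import Pool.Agent.TFA.Grd
import Pool.Agent.TFB.Defs

/-!
TFB/NewV (difficulty 2). The new vertices and the new colours of one leftover.
Proof of `newV`: `TFA.greedy` (see TFA/Grd and its use in TFA/Lt `lt_emb`) with `ι = Nv K =
(K × Fin 3) ⊕ ((K ⊕ K) × Fin 3)`, `rk (inl (κ, j)) = j`, `rk (inr (k, j)) = j`;
`con`: `inl (κ, 0) ↦ ∅`, `inl (κ, 1), inl (κ, 2) ↦ {inl (κ, 0)}`, `inr (k, 0), inr (k, 1) ↦ ∅`,
`inr (k, 2) ↦ {inr (k, 1)}`; `cW`: `inl (κ, 0) ↦ {a (inl κ), b (inl κ)}`, `inl (κ, 1) ↦ {b (inr κ)}`,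
`inl (κ, 2) ↦ {a (inr κ)}`, `inr (k, 0), inr (k, 1) ↦ {a k, b (ρ k)}`, `inr (k, 2) ↦ {a k}`.
(Define `con`, `cW` by `if j = 0 ...` or by `![..] j`.) `Fintype.card (Nv K) = 9 * card K`.
The structure `Ad G d` for `d = ⟨a, b, ρ, c, γ, f⟩`: unfold `Dat.x` etc.
Proof of `newC`: `HostC C kc`: induction on `card K2`, or use the greedy/`Finset.exists_subset..`: for
every `n` with `Γ.card + n ≤ kc` there is an injective `γ : Fin n → C` outside `Γ` (induction on `n`,
`Fin.snoc`/`Function.update`), then transport by `Fintype.equivFin`.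
-/

set_option autoImplicit false

namespace TFB

open Finset TFA

variable {V C K : Type} [DecidableEq V]

theorem NewV_fin {kc : ℕ} (hC : HostC C kc) [DecidableEq C] (Γ : Finset C) :
    ∀ n : ℕ, Γ.card + n ≤ kc → ∃ γ : Fin n → C, Function.Injective γ ∧ ∀ k, γ k ∉ Γ := by
  intro n
  induction n with
  | zero =>
    intro _
    exact ⟨fun i => i.elim0, fun i => i.elim0, fun i => i.elim0⟩
  | succ n ih =>
    intro h
    obtain ⟨γ, h1, h2⟩ := ih (by omega)
    obtain ⟨c, hc⟩ := hC (Γ ∪ univ.image γ) (by
      refine Nat.lt_of_le_of_lt (card_union_le _ _) ?_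
      have h3 : (univ.image γ).card ≤ n := by
        refine card_image_le.trans ?_
        simp
      omega)
    rw [mem_union, not_or] at hc
    refine ⟨Fin.snoc (α := fun _ => C) γ c, ?_, ?_⟩
    · intro i j hij
      induction i using Fin.lastCases with
      | last =>
        induction j using Fin.lastCases with
        | last => rfl
        | cast j =>
          exfalso
          rw [Fin.snoc_last, Fin.snoc_castSucc] at hij
          apply hc.2
          rw [hij]
          exact mem_image_of_mem γ (mem_univ j)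
      | cast i =>
        induction j using Fin.lastCases with
        | last =>
          exfalso
          rw [Fin.snoc_last, Fin.snoc_castSucc] at hij
          apply hc.2
          rw [← hij]
          exact mem_image_of_mem γ (mem_univ i)
        | cast j =>
          rw [Fin.snoc_castSucc, Fin.snoc_castSucc] at hij
          rw [h1 hij]
    · intro i
      induction i using Fin.lastCases with
      | last =>
        rw [Fin.snoc_last]
        exact hc.1
      | cast i =>
        rw [Fin.snoc_castSucc]
        exact h2 i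

theorem newV {G : SimpleGraph V} {k : ℕ} (hG : Host G k) (W : Finset V) [Fintype K]
    [DecidableEq K] (a b : K ⊕ K → V) (ρ : Equiv.Perm (K ⊕ K)) (c : K → C) (γ : K ⊕ K → C)
    (hW : W.card + 9 * Fintype.card K ≤ k) :
    ∃ f : Nv K → V, Function.Injective f ∧ (∀ i, f i ∉ W) ∧ Ad G (⟨a, b, ρ, c, γ, f⟩ : Dat V C K) := by
  let rk : Nv K → ℕ := fun i => match i with
    | Sum.inl (_, j) => j.val
    | Sum.inr (_, j) => j.val
  let con : Nv K → Finset (Nv K) := fun i => match i with
    | Sum.inl (κ, j) => if j = 0 then ∅ else {Sum.inl (κ, 0)}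
    | Sum.inr (k, j) => if j = 2 then {Sum.inr (k, 1)} else ∅
  let cW : Nv K → Finset V := fun i => match i with
    | Sum.inl (κ, j) => if j = 0 then {a (Sum.inl κ), b (Sum.inl κ)} else
        if j = 1 then {b (Sum.inr κ)} else {a (Sum.inr κ)}
    | Sum.inr (k, j) => if j = 2 then {a k} else {a k, b (ρ k)}
  obtain ⟨f, hf, hfW, hfc, hfW'⟩ := greedy hG rk con (by
      rintro (⟨κ, i⟩ | ⟨k, i⟩) j hj
      · fin_cases i
        · simp [con] at hj
        · simp only [con] at hj
          simp at hj
          subst hj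
          simp [rk]
        · simp only [con] at hj
          simp at hj
          subst hj
          simp [rk]
      · fin_cases i
        · simp [con] at hj
        · simp [con] at hj
        · simp only [con] at hj
          simp at hj
          subst hj
          simp [rk]) cW (by
      rintro (⟨κ, i⟩ | ⟨k, i⟩)
      · have h2 := Finset.card_le_two (a := a (Sum.inl κ)) (b := b (Sum.inl κ))
        fin_cases i
        · simp [con, cW]
          omega
        · simp [con, cW]
        · simp [con, cW]
      · have h2 := Finset.card_le_two (a := a k) (b := b (ρ k))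
        fin_cases i
        · simp [con, cW]
          omega
        · simp [con, cW]
          omega
        · simp [con, cW]) W (by
      have : Fintype.card (Nv K) = 9 * Fintype.card K := by
        simp only [Nv, Fintype.card_sum, Fintype.card_prod, Fintype.card_fin]
        ring
      omega)
  refine ⟨f, hf, hfW, ?_⟩
  constructor
  · intro κ
    exact hfW' (Sum.inl (κ, 0)) (a (Sum.inl κ)) (by simp [cW])
  · intro κ
    exact hfW' (Sum.inl (κ, 0)) (b (Sum.inl κ)) (by simp [cW])
  · intro κ
    exact hfW' (Sum.inl (κ, 1)) (b (Sum.inr κ)) (by simp [cW])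
  · intro κ
    exact hfc (Sum.inl (κ, 1)) (Sum.inl (κ, 0)) (by simp [con])
  · intro κ
    exact hfW' (Sum.inl (κ, 2)) (a (Sum.inr κ)) (by simp [cW])
  · intro κ
    exact hfc (Sum.inl (κ, 2)) (Sum.inl (κ, 0)) (by simp [con])
  · intro k
    exact hfW' (Sum.inr (k, 0)) (a k) (by simp [cW])
  · intro k
    exact hfW' (Sum.inr (k, 0)) (b (ρ k)) (by simp [cW])
  · intro k
    exact hfW' (Sum.inr (k, 1)) (a k) (by simp [cW])
  · intro k
    exact hfW' (Sum.inr (k, 1)) (b (ρ k)) (by simp [cW])
  · intro k
    exact hfc (Sum.inr (k, 2)) (Sum.inr (k, 1)) (by simp [con])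
  · intro k
    exact hfW' (Sum.inr (k, 2)) (a k) (by simp [cW])

theorem newC {kc : ℕ} (hC : HostC C kc) [DecidableEq C] (Γ : Finset C) {K2 : Type} [Fintype K2]
    (hΓ : Γ.card + Fintype.card K2 ≤ kc) :
    ∃ γ : K2 → C, Function.Injective γ ∧ ∀ k, γ k ∉ Γ := by
  obtain ⟨γ, h1, h2⟩ := NewV_fin hC Γ (Fintype.card K2) hΓ
  refine ⟨fun k => γ (Fintype.equivFin K2 k), ?_, fun k => h2 _⟩
  intro i j hij
  exact (Fintype.equivFin K2).injective (h1 hij)

end TFB
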