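import Mathlib
import Pool.Agent.TFB.Defs
import Pool.Agent.TFB.RmU

/-!
TFB/Nw (difficulty 2). The new explicit items: new, inside the next stage, edges of `G`; members.
`ND d` = items `IT d i` with `cls0 i ≠ Lb.n`, that is all `i` except `L k`, `Q κ`.
Proof: `mem_image`, `mem_filter`, `rcases i`, `fin_cases j`, `rcases k`. Every edge `F k j`, `N k j`,
`V k` contains a new vertex (`F k 0`: `np`, `F k 1`: `nm`, `F k 2`: `s`, `F k 3`: `g`, `N k 0`: `h`,
`N k 1`: `nm`, `N k 2`: `s`, `N k 3`: `g`, `V k`: `g`), the pairs `P κ j` have a new vertex, `R k j` a new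
colour (`gΓ`). Adjacency: `Ad`, with symmetry `G.Adj.symm` (`F (inl κ) 0 = a x`: `xa`,
`F (inr κ) 0 = a y'`: `ya`, `F (inl κ) 1 = x b`: `xb`, `F (inr κ) 1 = y b`: `yb`, `F k 2`: `sa`,
`F k 3`: `hg`, `N k 0`: `ha`, `N (inl κ) 1 = x y'`: `yx'`, `N (inr κ) 1 = y x`: `yx`, `N k 2`: `sb`,
`N k 3`: `ga`, `V k`: `gb`). `W1 = W ∪ univ.image d.f`, `Γ1 = Γ ∪ univ.image d.γ`.
`nd_card`: the set of indices has `8|K| + 8|K| + 2|K| + 3|K| + 10|K| = 31|K|` elements: bound
`ND d` by the union of the five images `univ.image (fun o : (K ⊕ K) × Fin 4 => IT d (Ix.F o.1 o.2))` etc.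
(`card_image_le`, `Fintype.card_prod`, ...).
`dd_mk`: `mk_map` with the nodup list `univ.toList`: the ends `y κ, y' κ, s k, h k` are different new
vertices (`d.f` injective), so `sp` holds for all pairs of different indices; the pairs of the ends are
`P κ 1`, `P κ 2`, `R k 0`, `R k 4`.
-/

set_option autoImplicit false

namespace TFB

open Finset TFA
open Pool.Agent.OBX (IsPath IsLink Mem Real RealL pit ends rends Sep)

variable {V C K : Type} [DecidableEq V] [DecidableEq C] [DecidableEq K] [Fintype K]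

omit [DecidableEq V] [DecidableEq C] [DecidableEq K] [Fintype K] in
theorem nw_np (d : Dat V C K) (k : K ⊕ K) : ∃ i, d.np k = d.f i := by
  rcases k with κ | κ
  · exact ⟨_, rfl⟩
  · exact ⟨_, rfl⟩

omit [DecidableEq V] [DecidableEq C] [DecidableEq K] [Fintype K] in
theorem nw_nm (d : Dat V C K) (k : K ⊕ K) : ∃ i, d.nm k = d.f i := by
  rcases k with κ | κ
  · exact ⟨_, rfl⟩
  · exact ⟨_, rfl⟩

omit [DecidableEq V] [DecidableEq C] in
/-- an edge with a new end is new -/
theorem nw_new {W : Finset V} {Γ : Finset C} {p q v : V} (hv : v ∉ W) (h : v = p ∨ v = q) :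
    ¬ In W Γ (Sum.inl s(p, q) : Item V C) := by
  intro hi
  exact hv (hi v (Sym2.mem_iff.2 h))

omit [DecidableEq V] [DecidableEq C] in
theorem nw_in {W : Finset V} {Γ : Finset C} {p q : V} (hp : p ∈ W) (hq : q ∈ W) :
    In W Γ (Sum.inl s(p, q) : Item V C) := by
  intro x hx
  rcases Sym2.mem_iff.1 hx with rfl | rfl
  · exact hp
  · exact hq

theorem nd_new {W : Finset V} {Γ : Finset C} {d : Dat V C K} (h : Ok W Γ d) (i : Item V C)
    (hi : i ∈ ND d) : ¬ In W Γ i := by
  unfold ND at hi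
  obtain ⟨j, hj, rfl⟩ := mem_image.1 hi
  have hj1 := (mem_filter.1 hj).2
  have hf : ∀ v, (∃ i, v = d.f i) → v ∉ W := by
    rintro v ⟨i, rfl⟩
    exact h.fW i
  cases j with
  | F k j =>
    fin_cases j
    · exact nw_new (hf _ (nw_np d k)) (Or.inr rfl)
    · exact nw_new (hf _ (nw_nm d k)) (Or.inl rfl)
    · exact nw_new (h.fW _ : d.s k ∉ W) (Or.inl rfl)
    · exact nw_new (h.fW _ : d.g k ∉ W) (Or.inl rfl)
  | N k j =>
    fin_cases j
    · exact nw_new (h.fW _ : d.h k ∉ W) (Or.inr rfl)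
    · exact nw_new (hf _ (nw_nm d k)) (Or.inl rfl)
    · exact nw_new (h.fW _ : d.s k ∉ W) (Or.inl rfl)
    · exact nw_new (h.fW _ : d.g k ∉ W) (Or.inl rfl)
  | V k => exact nw_new (h.fW _ : d.g k ∉ W) (Or.inr rfl)
  | L k => exact absurd rfl hj1
  | P κ j =>
    intro hin
    have h1 : ![d.x κ, d.y κ, d.y' κ] j ∈ W := hin.1
    fin_cases j
    · exact h.fW _ h1
    · exact h.fW _ h1
    · exact h.fW _ h1
  | Q κ => exact absurd rfl hj1
  | R k j =>
    intro hin
    exact h.gΓ k hin.2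

theorem nd_in {W : Finset V} {Γ : Finset C} {d : Dat V C K} (h : Ok W Γ d) (i : Item V C)
    (hi : i ∈ ND d) : In (W ∪ univ.image d.f) (Γ ∪ univ.image d.γ) i := by
  unfold ND at hi
  obtain ⟨j, hj, rfl⟩ := mem_image.1 hi
  have hj1 := (mem_filter.1 hj).2
  have hf : ∀ v, (∃ i, v = d.f i) → v ∈ W ∪ univ.image d.f := by
    rintro v ⟨i, rfl⟩
    exact mem_union_right _ (mem_image_of_mem _ (mem_univ _))
  have ha : ∀ k, d.a k ∈ W ∪ univ.image d.f := fun k => mem_union_left _ (h.aW k)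
  have hb : ∀ k, d.b k ∈ W ∪ univ.image d.f := fun k => mem_union_left _ (h.bW k)
  have hs : ∀ k, d.s k ∈ W ∪ univ.image d.f := fun k => hf _ ⟨_, rfl⟩
  have hg : ∀ k, d.g k ∈ W ∪ univ.image d.f := fun k => hf _ ⟨_, rfl⟩
  have hh : ∀ k, d.h k ∈ W ∪ univ.image d.f := fun k => hf _ ⟨_, rfl⟩
  cases j with
  | F k j =>
    fin_cases j
    · exact nw_in (ha k) (hf _ (nw_np d k))
    · exact nw_in (hf _ (nw_nm d k)) (hb k)
    · exact nw_in (hs k) (ha k)
    · exact nw_in (hg k) (hh k)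
  | N k j =>
    fin_cases j
    · exact nw_in (ha k) (hh k)
    · exact nw_in (hf _ (nw_nm d k)) (hf _ (nw_np d k.swap))
    · exact nw_in (hs k) (hb (d.ρ k))
    · exact nw_in (hg k) (ha k)
  | V k => exact nw_in (hb _) (hg k)
  | L k => exact absurd rfl hj1
  | P κ j =>
    refine ⟨?_, mem_union_left _ (h.cΓ κ)⟩
    fin_cases j
    · exact hf _ ⟨_, rfl⟩
    · exact hf _ ⟨_, rfl⟩
    · exact hf _ ⟨_, rfl⟩
  | Q κ => exact absurd rfl hj1
  | R k j =>
    refine ⟨?_, mem_union_right _ (mem_image_of_mem _ (mem_univ _))⟩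
    fin_cases j
    · exact hs k
    · exact ha k
    · exact hb (d.ρ k)
    · exact hg k
    · exact hh k

theorem nd_G {G : SimpleGraph V} {d : Dat V C K} (h : Ad G d) (e : Sym2 V)
    (he : (Sum.inl e : Item V C) ∈ ND d) : e ∈ G.edgeSet := by
  unfold ND at he
  obtain ⟨j, hj, hje⟩ := mem_image.1 he
  have hj1 := (mem_filter.1 hj).2
  have key : ∀ p q : V, G.Adj p q → (Sum.inl s(p, q) : Item V C) = Sum.inl e → e ∈ G.edgeSet := by
    intro p q hpq hpe
    rw [← Sum.inl_injective hpe]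
    exact hpq
  cases j with
  | F k j =>
    fin_cases j
    · rcases k with κ | κ
      · exact key _ _ (h.xa κ).symm hje
      · exact key _ _ (h.ya κ).symm hje
    · rcases k with κ | κ
      · exact key _ _ (h.xb κ) hje
      · exact key _ _ (h.yb κ) hje
    · exact key _ _ (h.sa k) hje
    · exact key _ _ (h.hg k).symm hje
  | N k j =>
    fin_cases j
    · exact key _ _ (h.ha k).symm hje
    · rcases k with κ | κ
      · exact key _ _ (h.yx' κ).symm hje
      · exact key _ _ (h.yx κ) hje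
    · exact key _ _ (h.sb k) hje
    · exact key _ _ (h.ga k) hje
  | V k => exact key _ _ (h.gb k).symm hje
  | L k => exact absurd rfl hj1
  | P κ j => exact absurd hje (by simp [IT])
  | Q κ => exact absurd rfl hj1
  | R k j => exact absurd hje (by simp [IT])

theorem nd_card (d : Dat V C K) : (ND d).card ≤ 31 * Fintype.card K := by
  have hsub : ND d ⊆ univ.image (fun o : (K ⊕ K) × Fin 4 => IT d (Ix.F o.1 o.2)) ∪
      (univ.image (fun o : (K ⊕ K) × Fin 4 => IT d (Ix.N o.1 o.2)) ∪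
      (univ.image (fun k : K ⊕ K => IT d (Ix.V k)) ∪
      (univ.image (fun o : K × Fin 3 => IT d (Ix.P o.1 o.2)) ∪
      univ.image (fun o : (K ⊕ K) × Fin 5 => IT d (Ix.R o.1 o.2))))) := by
    intro i hi
    unfold ND at hi
    obtain ⟨j, hj, rfl⟩ := mem_image.1 hi
    have hj1 := (mem_filter.1 hj).2
    cases j with
    | F k j => exact mem_union_left _ (mem_image.2 ⟨(k, j), mem_univ _, rfl⟩)
    | N k j => exact mem_union_right _ (mem_union_left _ (mem_image.2 ⟨(k, j), mem_univ _, rfl⟩))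
    | V k => exact mem_union_right _ (mem_union_right _ (mem_union_left _
        (mem_image.2 ⟨k, mem_univ _, rfl⟩)))
    | L k => exact absurd rfl hj1
    | P κ j => exact mem_union_right _ (mem_union_right _ (mem_union_right _ (mem_union_left _
        (mem_image.2 ⟨(κ, j), mem_univ _, rfl⟩))))
    | Q κ => exact absurd rfl hj1
    | R k j => exact mem_union_right _ (mem_union_right _ (mem_union_right _ (mem_union_right _
        (mem_image.2 ⟨(k, j), mem_univ _, rfl⟩))))
  have c1 := card_image_le (s := (univ : Finset ((K ⊕ K) × Fin 4)))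
    (f := fun o : (K ⊕ K) × Fin 4 => IT d (Ix.F o.1 o.2))
  have c2 := card_image_le (s := (univ : Finset ((K ⊕ K) × Fin 4)))
    (f := fun o : (K ⊕ K) × Fin 4 => IT d (Ix.N o.1 o.2))
  have c3 := card_image_le (s := (univ : Finset (K ⊕ K))) (f := fun k : K ⊕ K => IT d (Ix.V k))
  have c4 := card_image_le (s := (univ : Finset (K × Fin 3)))
    (f := fun o : K × Fin 3 => IT d (Ix.P o.1 o.2))
  have c5 := card_image_le (s := (univ : Finset ((K ⊕ K) × Fin 5)))
    (f := fun o : (K ⊕ K) × Fin 5 => IT d (Ix.R o.1 o.2))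
  simp only [card_univ, Fintype.card_prod, Fintype.card_sum, Fintype.card_fin] at c1 c2 c3 c4 c5
  refine (card_le_card hsub).trans ?_
  refine (card_union_le _ _).trans ?_
  refine (Nat.add_le_add c1 ((card_union_le _ _).trans (Nat.add_le_add c2 ((card_union_le _ _).trans
    (Nat.add_le_add c3 ((card_union_le _ _).trans (Nat.add_le_add c4 c5))))))).trans ?_
  omega

theorem dd_mk {W : Finset V} {Γ : Finset C} {d : Dat V C K} (h : Ok W Γ d) :
    Mk (DD d) (ND d) := by
  unfold DD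
  refine mk_map _ (nodup_toList _) (mem d) (ND d) ?_ ?_
  · intro i _
    rcases i with κ | k
    · refine ⟨?_, by norm_num [mem], by norm_num [mem], ?_, ?_⟩
      · intro he
        have h1 := h.jf (he : d.f (Sum.inl (κ, 1)) = d.f (Sum.inl (κ, 2)))
        simp at h1
      · exact mem_image.2 ⟨Ix.P κ 1, mem_filter.2 ⟨mem_univ _, by simp [cls0]⟩, rfl⟩
      · exact mem_image.2 ⟨Ix.P κ 2, mem_filter.2 ⟨mem_univ _, by simp [cls0]⟩, rfl⟩
    · refine ⟨?_, by norm_num [mem], by norm_num [mem], ?_, ?_⟩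
      · intro he
        have h1 := h.jf (he : d.f (Sum.inr (k, 0)) = d.f (Sum.inr (k, 2)))
        simp at h1
      · exact mem_image.2 ⟨Ix.R k 0, mem_filter.2 ⟨mem_univ _, by simp [cls0]⟩, rfl⟩
      · exact mem_image.2 ⟨Ix.R k 4, mem_filter.2 ⟨mem_univ _, by simp [cls0]⟩, rfl⟩
  · intro i _ j _ hij _
    rcases i with κ | k <;> rcases j with κ' | k'
    · have hne : κ ≠ κ' := fun he => hij (by rw [he])
      refine ⟨fun he => ?_, fun he => ?_, fun he => ?_, fun he => ?_⟩
      · have h1 := h.jf (he : d.f (Sum.inl (κ, 1)) = d.f (Sum.inl (κ', 1)))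
        simp [hne] at h1
      · have h1 := h.jf (he : d.f (Sum.inl (κ, 1)) = d.f (Sum.inl (κ', 2)))
        simp at h1
      · have h1 := h.jf (he : d.f (Sum.inl (κ, 2)) = d.f (Sum.inl (κ', 1)))
        simp at h1
      · have h1 := h.jf (he : d.f (Sum.inl (κ, 2)) = d.f (Sum.inl (κ', 2)))
        simp [hne] at h1
    · refine ⟨fun he => ?_, fun he => ?_, fun he => ?_, fun he => ?_⟩
      · have h1 := h.jf (he : d.f (Sum.inl (κ, 1)) = d.f (Sum.inr (k', 0)))
        simp at h1
      · have h1 := h.jf (he : d.f (Sum.inl (κ, 1)) = d.f (Sum.inr (k', 2)))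
        simp at h1
      · have h1 := h.jf (he : d.f (Sum.inl (κ, 2)) = d.f (Sum.inr (k', 0)))
        simp at h1
      · have h1 := h.jf (he : d.f (Sum.inl (κ, 2)) = d.f (Sum.inr (k', 2)))
        simp at h1
    · refine ⟨fun he => ?_, fun he => ?_, fun he => ?_, fun he => ?_⟩
      · have h1 := h.jf (he : d.f (Sum.inr (k, 0)) = d.f (Sum.inl (κ', 1)))
        simp at h1
      · have h1 := h.jf (he : d.f (Sum.inr (k, 0)) = d.f (Sum.inl (κ', 2)))
        simp at h1
      · have h1 := h.jf (he : d.f (Sum.inr (k, 2)) = d.f (Sum.inl (κ', 1)))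
        simp at h1
      · have h1 := h.jf (he : d.f (Sum.inr (k, 2)) = d.f (Sum.inl (κ', 2)))
        simp at h1
    · have hne : k ≠ k' := fun he => hij (by rw [he])
      refine ⟨fun he => ?_, fun he => ?_, fun he => ?_, fun he => ?_⟩
      · have h1 := h.jf (he : d.f (Sum.inr (k, 0)) = d.f (Sum.inr (k', 0)))
        simp [hne] at h1
      · have h1 := h.jf (he : d.f (Sum.inr (k, 0)) = d.f (Sum.inr (k', 2)))
        simp at h1
      · have h1 := h.jf (he : d.f (Sum.inr (k, 2)) = d.f (Sum.inr (k', 0)))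
        simp at h1
      · have h1 := h.jf (he : d.f (Sum.inr (k, 2)) = d.f (Sum.inr (k', 2)))
        simp [hne] at h1

end TFB
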