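import Mathlib
import Pool.Agent.TFB.Defs
import Pool.Agent.TFB.Pth
import Pool.Agent.TFB.ItInj

/-!
TFB/St. The classes of the two states are the required paths and links.
-/

set_option autoImplicit false

namespace TFB

open Finset TFA
open Pool.Agent.OBX (IsPath IsLink Mem Real RealL pit ends rends Sep)

variable {V C K : Type} [DecidableEq V] [DecidableEq C] [DecidableEq K] [Fintype K]

omit [DecidableEq V] [DecidableEq C] in
theorem st_c1 (κ : K) : univ.filter (fun i : Ix K => cls1 i = Lb.m (Sum.inl κ)) =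
    {Ix.F (Sum.inr κ) 1, Ix.F (Sum.inr κ) 0, Ix.P κ 1, Ix.Q κ, Ix.P κ 2} := by
  ext i
  rw [mem_filter]
  rcases i with ⟨k, j⟩ | ⟨k, j⟩ | k | k | ⟨k, j⟩ | k | ⟨k, j⟩
  · rcases k with k | k <;> fin_cases j <;> simp [cls1, eq_comm]
  · rcases k with k | k <;> fin_cases j <;> simp [cls1, eq_comm]
  · simp [cls1]
  · simp [cls1]
  · fin_cases j <;> simp [cls1, eq_comm]
  · simp [cls1, eq_comm]
  · simp [cls1]

theorem st_c2 (k : K ⊕ K) : univ.filter (fun i : Ix K => cls1 i = Lb.m (Sum.inr k)) =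
    {Ix.F k 2, Ix.L k, Ix.V k, Ix.F k 3, Ix.R k 0, Ix.R k 1, Ix.R k 2, Ix.R k 3, Ix.R k 4} := by
  ext i
  rw [mem_filter]
  rcases i with ⟨k', j⟩ | ⟨k', j⟩ | k' | k' | ⟨k', j⟩ | k' | ⟨k', j⟩
  · rcases k' with k' | k' <;> fin_cases j <;> simp [cls1, eq_comm]
  · rcases k' with k' | k' <;> fin_cases j <;> simp [cls1, eq_comm]
  · simp [cls1, eq_comm]
  · simp [cls1, eq_comm]
  · fin_cases j <;> simp [cls1, eq_comm]
  · simp [cls1, eq_comm]
  · fin_cases j <;> simp [cls1, eq_comm]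

theorem st_c3 (κ : K) : univ.filter (fun i : Ix K => cls1 i = Lb.z κ) =
    {Ix.F (Sum.inl κ) 0, Ix.F (Sum.inl κ) 1, Ix.P κ 0} := by
  ext i
  rw [mem_filter]
  rcases i with ⟨k', j⟩ | ⟨k', j⟩ | k' | k' | ⟨k', j⟩ | k' | ⟨k', j⟩
  · rcases k' with k' | k' <;> fin_cases j <;> simp [cls1, eq_comm]
  · rcases k' with k' | k' <;> fin_cases j <;> simp [cls1, eq_comm]
  · simp [cls1]
  · simp [cls1]
  · fin_cases j <;> simp [cls1, eq_comm]
  · simp [cls1, eq_comm]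
  · fin_cases j <;> simp [cls1, eq_comm]

theorem st_d1 (κ : K) : univ.filter (fun i : Ix K => cls0 i = Lb.m (Sum.inl κ)) =
    {Ix.N (Sum.inr κ) 1, Ix.N (Sum.inl κ) 1, Ix.P κ 1, Ix.P κ 0, Ix.P κ 2} := by
  ext i
  rw [mem_filter]
  rcases i with ⟨k, j⟩ | ⟨k, j⟩ | k | k | ⟨k, j⟩ | k | ⟨k, j⟩
  · rcases k with k | k <;> fin_cases j <;> simp [cls0, eq_comm]
  · rcases k with k | k <;> fin_cases j <;> simp [cls0, eq_comm]
  · simp [cls0]
  · simp [cls0]
  · fin_cases j <;> simp [cls0, eq_comm]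
  · simp [cls0, eq_comm]
  · simp [cls0]

theorem st_d2 (k : K ⊕ K) : univ.filter (fun i : Ix K => cls0 i = Lb.m (Sum.inr k)) =
    {Ix.N k 2, Ix.V k, Ix.N k 3, Ix.N k 0, Ix.R k 0, Ix.R k 2, Ix.R k 3, Ix.R k 1, Ix.R k 4} := by
  ext i
  rw [mem_filter]
  rcases i with ⟨k', j⟩ | ⟨k', j⟩ | k' | k' | ⟨k', j⟩ | k' | ⟨k', j⟩
  · rcases k' with k' | k' <;> fin_cases j <;> simp [cls0, eq_comm]
  · rcases k' with k' | k' <;> fin_cases j <;> simp [cls0, eq_comm]
  · simp [cls0, eq_comm]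
  · simp [cls0, eq_comm]
  · fin_cases j <;> simp [cls0, eq_comm]
  · simp [cls0, eq_comm]
  · fin_cases j <;> simp [cls0, eq_comm]

theorem s1_path {W : Finset V} {Γ : Finset C} {d : Dat V C K} (h : Ok W Γ d) (i : K ⊕ (K ⊕ K)) :
    IsPath (mem d i).2.2.2 (mem d i).1 (mem d i).2.1 (mem d i).2.2.1 (S1 d (Lb.m i)) := by
  have hf : ∀ i j, d.f i = d.f j ↔ i = j := fun i j => h.jf.eq_iff
  have hfa : ∀ i k, d.f i ≠ d.a k := fun i k e => h.fW i (e ▸ h.aW k)
  have haf : ∀ i k, d.a k ≠ d.f i := fun i k e => h.fW i (e ▸ h.aW k)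
  have hfb : ∀ i k, d.f i ≠ d.b k := fun i k e => h.fW i (e ▸ h.bW k)
  have hbf : ∀ i k, d.b k ≠ d.f i := fun i k e => h.fW i (e ▸ h.bW k)
  rcases i with κ | k
  · have h1 := pth3 (d.c κ) (d.y κ) (d.a (Sum.inr κ)) (d.y' κ) (hfa _ _) (by
      intro e
      have := h.jf e
      simp at this) (haf _ _)
    have h2 : S1 d (Lb.m (Sum.inl κ)) = {Sum.inl s(d.y κ, d.a (Sum.inr κ)),
        Sum.inl s(d.a (Sum.inr κ), d.y' κ), Sum.inr (d.y κ, d.c κ),
        Sum.inr (d.a (Sum.inr κ), d.c κ), Sum.inr (d.y' κ, d.c κ)} := by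
      unfold S1
      rw [st_c1]
      simp only [image_insert, image_singleton]
      have e1 : IT d (Ix.F (Sum.inr κ) 1) = Sum.inl s(d.y κ, d.a (Sum.inr κ)) := by
        show Sum.inl s(d.y κ, d.b (Sum.inr κ)) = _
        rw [h.eq]
      rw [e1]
      rfl
    rw [h2]
    exact h1
  · have h1 := pth5 (d.γ k) (d.s k) (d.a k) (d.b (d.ρ k)) (d.g k) (d.h k) (hfa _ _) (hfb _ _)
      (by intro e; have := h.jf e; simp at this) (by intro e; have := h.jf e; simp at this)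
      (h.lp k) (haf _ _) (haf _ _) (hbf _ _) (hbf _ _)
      (by intro e; have := h.jf e; simp at this)
    have h2 : S1 d (Lb.m (Sum.inr k)) = {Sum.inl s(d.s k, d.a k), Sum.inl s(d.a k, d.b (d.ρ k)),
        Sum.inl s(d.b (d.ρ k), d.g k), Sum.inl s(d.g k, d.h k), Sum.inr (d.s k, d.γ k),
        Sum.inr (d.a k, d.γ k), Sum.inr (d.b (d.ρ k), d.γ k), Sum.inr (d.g k, d.γ k),
        Sum.inr (d.h k, d.γ k)} := by
      unfold S1
      rw [st_c2]
      simp only [image_insert, image_singleton]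
      rfl
    rw [h2]
    exact h1

theorem s0_path {W : Finset V} {Γ : Finset C} {d : Dat V C K} (h : Ok W Γ d) (i : K ⊕ (K ⊕ K)) :
    IsPath (mem d i).2.2.2 (mem d i).1 (mem d i).2.1 (mem d i).2.2.1 (S0 d (Lb.m i)) := by
  have hfa : ∀ i k, d.f i ≠ d.a k := fun i k e => h.fW i (e ▸ h.aW k)
  have haf : ∀ i k, d.a k ≠ d.f i := fun i k e => h.fW i (e ▸ h.aW k)
  have hfb : ∀ i k, d.f i ≠ d.b k := fun i k e => h.fW i (e ▸ h.bW k)
  have hbf : ∀ i k, d.b k ≠ d.f i := fun i k e => h.fW i (e ▸ h.bW k)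
  rcases i with κ | k
  · have h1 := pth3 (d.c κ) (d.y κ) (d.x κ) (d.y' κ)
      (by intro e; have := h.jf e; simp at this)
      (by intro e; have := h.jf e; simp at this)
      (by intro e; have := h.jf e; simp at this)
    have h2 : S0 d (Lb.m (Sum.inl κ)) = {Sum.inl s(d.y κ, d.x κ),
        Sum.inl s(d.x κ, d.y' κ), Sum.inr (d.y κ, d.c κ),
        Sum.inr (d.x κ, d.c κ), Sum.inr (d.y' κ, d.c κ)} := by
      unfold S0
      rw [st_d1]
      simp only [image_insert, image_singleton]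
      rfl
    rw [h2]
    exact h1
  · have h1 := pth5 (d.γ k) (d.s k) (d.b (d.ρ k)) (d.g k) (d.a k) (d.h k) (hfb _ _)
      (by intro e; have := h.jf e; simp at this) (hfa _ _)
      (by intro e; have := h.jf e; simp at this)
      (hbf _ _) (h.lp k).symm (hbf _ _) (hfa _ _)
      (by intro e; have := h.jf e; simp at this) (haf _ _)
    have h2 : S0 d (Lb.m (Sum.inr k)) = {Sum.inl s(d.s k, d.b (d.ρ k)),
        Sum.inl s(d.b (d.ρ k), d.g k), Sum.inl s(d.g k, d.a k), Sum.inl s(d.a k, d.h k),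
        Sum.inr (d.s k, d.γ k), Sum.inr (d.b (d.ρ k), d.γ k), Sum.inr (d.g k, d.γ k),
        Sum.inr (d.a k, d.γ k), Sum.inr (d.h k, d.γ k)} := by
      unfold S0
      rw [st_d2]
      simp only [image_insert, image_singleton]
      rfl
    rw [h2]
    exact h1

theorem s1_link {W : Finset V} {Γ : Finset C} {d : Dat V C K} (h : Ok W Γ d) (κ : K) (p q : V)
    (hpq : (d.a (Sum.inl κ) = p ∧ d.b (Sum.inl κ) = q) ∨ (d.a (Sum.inl κ) = q ∧ d.b (Sum.inl κ) = p)) :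
    IsLink 1 (d.c κ) p q (S1 d (Lb.z κ)) := by
  have hax : d.a (Sum.inl κ) ≠ d.x κ := fun e =>
    h.fW (Sum.inl (κ, 0)) (by have h0 := h.aW (Sum.inl κ); rw [e] at h0; exact h0)
  have hbx : d.b (Sum.inl κ) ≠ d.x κ := fun e =>
    h.fW (Sum.inl (κ, 0)) (by have h0 := h.bW (Sum.inl κ); rw [e] at h0; exact h0)
  have h2 : S1 d (Lb.z κ) = {Sum.inl s(d.a (Sum.inl κ), d.x κ), Sum.inl s(d.x κ, d.b (Sum.inl κ)),
      Sum.inr (d.x κ, d.c κ)} := by
    unfold S1
    rw [st_c3]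
    simp only [image_insert, image_singleton]
    rfl
  rcases hpq with ⟨rfl, rfl⟩ | ⟨rfl, rfl⟩
  · rw [h2]
    exact lk1 (d.c κ) _ _ (d.x κ) (h.ne κ) hax hbx
  · have h3 : S1 d (Lb.z κ) = {Sum.inl s(d.b (Sum.inl κ), d.x κ), Sum.inl s(d.x κ, d.a (Sum.inl κ)),
        Sum.inr (d.x κ, d.c κ)} := by
      rw [h2, Sym2.eq_swap (a := d.a (Sum.inl κ)), Sym2.eq_swap (a := d.x κ) (b := d.b (Sum.inl κ)),
        insert_comm]
    rw [h3]
    exact lk1 (d.c κ) _ _ (d.x κ) (h.ne κ).symm hbx hax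

theorem s1_t (d : Dat V C K) :
    S1 d Lb.t = univ.image (fun o => (Sum.inl s(d.u o, d.w (d.π o)) : Item V C)) := by
  ext i
  unfold S1
  simp only [mem_image, mem_filter, mem_univ, true_and]
  constructor
  · rintro ⟨j, hj, rfl⟩
    rcases j with ⟨k, j⟩ | ⟨k, j⟩ | k | k | ⟨k, j⟩ | k | ⟨k, j⟩
    · exfalso
      rcases k with k | k <;> fin_cases j <;> simp [cls1] at hj
    · exact ⟨(k, j), rfl⟩
    · exact absurd hj (by simp [cls1])
    · exact absurd hj (by simp [cls1])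
    · exfalso
      fin_cases j <;> simp [cls1] at hj
    · exact absurd hj (by simp [cls1])
    · exact absurd hj (by simp [cls1])
  · rintro ⟨o, rfl⟩
    exact ⟨Ix.N o.1 o.2, rfl, rfl⟩

theorem s0_t (d : Dat V C K) :
    S0 d Lb.t = univ.image (fun o => (Sum.inl s(d.u o, d.w o) : Item V C)) := by
  ext i
  unfold S0
  simp only [mem_image, mem_filter, mem_univ, true_and]
  constructor
  · rintro ⟨j, hj, rfl⟩
    rcases j with ⟨k, j⟩ | ⟨k, j⟩ | k | k | ⟨k, j⟩ | k | ⟨k, j⟩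
    · exact ⟨(k, j), rfl⟩
    · exfalso
      rcases k with k | k <;> fin_cases j <;> simp [cls0] at hj
    · exact absurd hj (by simp [cls0])
    · exact absurd hj (by simp [cls0])
    · exact absurd hj (by simp [cls0])
    · exact absurd hj (by simp [cls0])
    · exact absurd hj (by simp [cls0])
  · rintro ⟨o, rfl⟩
    exact ⟨Ix.F o.1 o.2, rfl, rfl⟩

theorem s1_dis {W : Finset V} {Γ : Finset C} {d : Dat V C K} (h : Ok W Γ d) (l l' : Lb K)
    (hl : l ≠ l') : Disjoint (S1 d l) (S1 d l') := by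
  unfold S1
  rw [disjoint_image (itInj h), disjoint_left]
  intro i hi hi'
  rw [mem_filter] at hi hi'
  exact hl (hi.2.symm.trans hi'.2)

theorem s0_dis {W : Finset V} {Γ : Finset C} {d : Dat V C K} (h : Ok W Γ d) (l l' : Lb K)
    (hl : l ≠ l') : Disjoint (S0 d l) (S0 d l') := by
  unfold S0
  rw [disjoint_image (itInj h), disjoint_left]
  intro i hi hi'
  rw [mem_filter] at hi hi'
  exact hl (hi.2.symm.trans hi'.2)

/-- the leftover -/
def Lft (d : Dat V C K) : Finset (Item V C) :=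
  univ.image (fun k => IT d (Ix.L k)) ∪ univ.image (fun κ => IT d (Ix.Q κ))

theorem s1_un (d : Dat V C K) :
    univ.biUnion (fun i => S1 d (Lb.m i)) ∪ S1 d Lb.t ∪ univ.biUnion (fun κ => S1 d (Lb.z κ)) =
      ND d ∪ Lft d := by
  ext i
  simp only [S1, ND, Lft, mem_union, mem_biUnion, mem_image, mem_filter, mem_univ, true_and]
  constructor
  · rintro ((⟨l, j, -, rfl⟩ | ⟨j, -, rfl⟩) | ⟨l, j, -, rfl⟩) <;>
    · rcases j with ⟨k, j⟩ | ⟨k, j⟩ | k | k | ⟨k, j⟩ | k | ⟨k, j⟩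
      · exact Or.inl ⟨_, by simp [cls0], rfl⟩
      · refine Or.inl ⟨_, ?_, rfl⟩
        rcases k with k | k <;> fin_cases j <;> simp [cls0]
      · exact Or.inl ⟨_, by simp [cls0], rfl⟩
      · exact Or.inr (Or.inl ⟨k, rfl⟩)
      · exact Or.inl ⟨_, by simp [cls0], rfl⟩
      · exact Or.inr (Or.inr ⟨k, rfl⟩)
      · exact Or.inl ⟨_, by simp [cls0], rfl⟩
  · have key : ∀ j : Ix K, ((∃ a a_1, cls1 a_1 = Lb.m a ∧ IT d a_1 = IT d j) ∨
        ∃ a, cls1 a = Lb.t ∧ IT d a = IT d j) ∨ ∃ a a_1, cls1 a_1 = Lb.z a ∧ IT d a_1 = IT d j := by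
      intro j
      rcases hj : cls1 j with l | κ | _ | _
      · exact Or.inl (Or.inl ⟨l, j, hj, rfl⟩)
      · exact Or.inr ⟨κ, j, hj, rfl⟩
      · exact Or.inl (Or.inr ⟨j, hj, rfl⟩)
      · exfalso
        rcases j with ⟨k, j⟩ | ⟨k, j⟩ | k | k | ⟨k, j⟩ | k | ⟨k, j⟩
        · rcases k with k | k <;> fin_cases j <;> simp [cls1] at hj
        · simp [cls1] at hj
        · simp [cls1] at hj
        · simp [cls1] at hj
        · fin_cases j <;> simp [cls1] at hj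
        · simp [cls1] at hj
        · simp [cls1] at hj
    rintro (⟨j, -, rfl⟩ | ⟨k, rfl⟩ | ⟨k, rfl⟩)
    · exact key j
    · exact key _
    · exact key _

theorem s0_un (d : Dat V C K) :
    univ.biUnion (fun i => S0 d (Lb.m i)) ∪ S0 d Lb.t = ND d := by
  ext i
  simp only [S0, ND, mem_union, mem_biUnion, mem_image, mem_filter, mem_univ, true_and]
  constructor
  · rintro (⟨l, j, hj, rfl⟩ | ⟨j, hj, rfl⟩)
    · exact ⟨j, by rw [hj]; exact (fun h => by cases h), rfl⟩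
    · exact ⟨j, by rw [hj]; exact (fun h => by cases h), rfl⟩
  · rintro ⟨j, hj, rfl⟩
    rcases hj' : cls0 j with l | κ | _ | _
    · exact Or.inl ⟨l, j, hj', rfl⟩
    · exfalso
      rcases j with ⟨k, j⟩ | ⟨k, j⟩ | k | k | ⟨k, j⟩ | k | ⟨k, j⟩
      · simp [cls0] at hj'
      · rcases k with k | k <;> fin_cases j <;> simp [cls0] at hj'
      · simp [cls0] at hj'
      · simp [cls0] at hj'
      · simp [cls0] at hj'
      · simp [cls0] at hj'
      · simp [cls0] at hj'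
    · exact Or.inr ⟨j, hj', rfl⟩
    · exact absurd hj' hj

end TFB
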