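import Mathlib
import Pool.Agent.TFA.Tau

/-!
TFB/Tau2 (difficulty 3). Closed trails with corners `{A k, B k}`: generalisation of TFA/Tau (file
Pool/Agent/TFA/Tau.lean in /team-store/tfa_all.tgz, theorem `TFA.tau`, which is the case `A = B = v`).
Proof: as there: darts `D = {d : V × Sym2 V // d.2 ∈ H ∧ d.1 ∈ d.2}`, flip `a`; base map
`β (k, true) = A k`, `β (k, false) = B k` on `K × Bool`; the number of darts with `d.1 = x` is
`deg x = #{k : A k = x} + #{k : B k = x} = #{κ : β κ = x}`; `TFA.tau_fib` gives `φ : D ≃ K × Bool` with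
`β (φ d) = d.1`. `inv2` for `a' = φ ∘ a ∘ φ⁻¹` and `b (k,t) = (k,!t)` gives `f`. `out k = (k, t k)` is the
element over `k` with `f = true`. Put `a k := β (out k) = β (k, t k)`, `b k := β (k, !(t k))`,
`ρ k := (a' (out k)).1` (then `a' (out k) = (ρ k, !(t (ρ k)))`), so `b (ρ k) = β (a' (out k)) =
(a (φ⁻¹ (out k))).1` is the other end of the edge of the dart `φ⁻¹ (out k)`, whose base is `a k`.
-/

set_option autoImplicit false

namespace TFB

open Finset TFA

lemma tau2_fib {A B X : Type} [Fintype A] [Fintype B] [DecidableEq X] (f : A → X) (g : B → X)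
    (h : ∀ x, (univ.filter (fun a => f a = x)).card = (univ.filter (fun b => g b = x)).card) :
    ∃ φ : A ≃ B, ∀ a, g (φ a) = f a := by
  classical
  have e : ∀ x, Nonempty ({a // f a = x} ≃ {b // g b = x}) := by
    intro x
    apply Fintype.card_eq.mp
    rw [Fintype.card_subtype, Fintype.card_subtype]
    exact h x
  let e' : ∀ x, {a // f a = x} ≃ {b // g b = x} := fun x => (e x).some
  refine ⟨(Equiv.sigmaFiberEquiv f).symm.trans ((Equiv.sigmaCongrRight e').trans
    (Equiv.sigmaFiberEquiv g)), fun a => ?_⟩
  exact (e' (f a) ⟨a, rfl⟩).2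

/-- base point of a dart -/
def tau2Base {V K : Type} (A B : K → V) (κ : K × Bool) : V := if κ.2 then A κ.1 else B κ.1

lemma tau2_card {V K : Type} [DecidableEq V] [Fintype K] (A B : K → V) (x : V) :
    (univ.filter (fun κ : K × Bool => tau2Base A B κ = x)).card =
      (univ.filter (fun k => A k = x)).card + (univ.filter (fun k => B k = x)).card := by
  rw [card_filter, card_filter, card_filter, Fintype.sum_prod_type, ← sum_add_distrib]
  apply sum_congr rfl
  intro k _
  rw [Fintype.sum_bool]
  simp [tau2Base]

theorem tau2 {V : Type} [Fintype V] [DecidableEq V] (H : Finset (Sym2 V))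
    (hloop : ∀ e ∈ H, ¬ e.IsDiag) {K : Type} [Fintype K] [DecidableEq K] (A B : K → V)
    (hdeg : ∀ x, (H.filter (fun e => x ∈ e)).card =
      (univ.filter (fun k => A k = x)).card + (univ.filter (fun k => B k = x)).card) :
    ∃ (a b : K → V) (ρ : Equiv.Perm K),
      (∀ k, (a k = A k ∧ b k = B k) ∨ (a k = B k ∧ b k = A k)) ∧
      Function.Injective (fun k => s(a k, b (ρ k))) ∧
      univ.image (fun k => s(a k, b (ρ k))) = H := by
  classical
  let D : Type := {d : V × Sym2 V // d.2 ∈ H ∧ d.1 ∈ d.2}
  let a : D → D := fun d => ⟨(Sym2.Mem.other d.2.2, d.1.2), d.2.1, Sym2.other_mem _⟩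
  have ha : Function.Involutive a := by
    rintro ⟨⟨x, e⟩, h1, h2⟩
    apply Subtype.ext
    apply Prod.ext
    · exact Sym2.other_invol h2 _
    · rfl
  have haspec : ∀ d : D, s(d.1.1, (a d).1.1) = d.1.2 := fun d => Sym2.other_spec d.2.2
  have ha2 : ∀ d : D, (a d).1.2 = d.1.2 := fun d => rfl
  have hane : ∀ d : D, a d ≠ d := by
    intro d hd
    exact Sym2.other_ne (hloop _ d.2.1) d.2.2 (congrArg (fun d : D => d.1.1) hd)
  -- darts with the same edge
  have hsame : ∀ d d' : D, d.1.2 = d'.1.2 → d = d' ∨ d' = a d := by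
    intro d d' h
    have h1 : d'.1.1 ∈ s(d.1.1, (a d).1.1) := by
      rw [haspec d, h]; exact d'.2.2
    rw [Sym2.mem_iff] at h1
    rcases h1 with h1 | h1
    · left; apply Subtype.ext; exact Prod.ext h1.symm h
    · right; apply Subtype.ext; exact Prod.ext h1 (by rw [ha2 d]; exact h.symm)
  have hfib : ∀ x, (univ.filter (fun d : D => d.1.1 = x)).card =
      (univ.filter (fun κ : K × Bool => tau2Base A B κ = x)).card := by
    intro x
    have h1 : (univ.filter (fun d : D => d.1.1 = x)).card = (H.filter (fun e => x ∈ e)).card := by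
      apply Finset.card_bij (fun d _ => d.1.2)
      · intro d hd
        rw [mem_filter] at hd ⊢
        refine ⟨d.2.1, ?_⟩
        have := d.2.2
        rw [hd.2] at this
        exact this
      · intro d hd d' hd' h
        rw [mem_filter] at hd hd'
        apply Subtype.ext
        exact Prod.ext (hd.2.trans hd'.2.symm) h
      · intro e he
        rw [mem_filter] at he
        exact ⟨⟨(x, e), he.1, he.2⟩, by simp, rfl⟩
    rw [h1, hdeg x, tau2_card]
  obtain ⟨φ, hφ⟩ := tau2_fib (fun d : D => d.1.1) (fun κ : K × Bool => tau2Base A B κ) hfib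
  let a' : K × Bool → K × Bool := fun κ => φ (a (φ.symm κ))
  let b : K × Bool → K × Bool := fun κ => (κ.1, !κ.2)
  have ha' : Function.Involutive a' := by
    intro κ
    simp only [a', Equiv.symm_apply_apply, ha (φ.symm κ), Equiv.apply_symm_apply]
  have hb : Function.Involutive b := by
    rintro ⟨k, t⟩
    simp [b]
  have ha'ne : ∀ κ, a' κ ≠ κ := by
    intro κ h
    apply hane (φ.symm κ)
    apply φ.injective
    rw [Equiv.apply_symm_apply]
    exact h
  have hbne : ∀ κ, b κ ≠ κ := by
    rintro ⟨k, t⟩ h
    simp [b] at h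
  obtain ⟨f, hfa, hfb⟩ := inv2 a' b ha' hb ha'ne hbne
  have hout : ∀ k : K, ∃ t, f (k, t) = true ∧ f (k, !t) = false := by
    intro k
    have h1 := hfb (k, true)
    simp only [b, Bool.not_true] at h1
    cases h : f (k, true) with
    | true => exact ⟨true, h, by rw [h] at h1; simpa using h1⟩
    | false => exact ⟨false, by rw [h] at h1; simpa using h1, by simpa using h⟩
  choose t ht1 ht2 using hout
  let out : K → K × Bool := fun k => (k, t k)
  have hfout : ∀ k, f (out k) = true := ht1
  -- element with f = true over k is out k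
  have huniq1 : ∀ κ : K × Bool, f κ = true → κ = out κ.1 := by
    rintro ⟨k, s⟩ hs
    by_cases h : s = t k
    · simp [out, h]
    · have : s = !(t k) := by
        cases s <;> cases h' : t k <;> simp_all
      subst this
      rw [ht2 k] at hs
      exact absurd hs (by simp)
  have huniq0 : ∀ κ κ' : K × Bool, f κ = false → f κ' = false → κ.1 = κ'.1 → κ = κ' := by
    rintro ⟨k, s⟩ ⟨k', s'⟩ hs hs' hk
    simp only at hk
    subst hk
    have h1 : s ≠ t k := by
      rintro rfl
      rw [ht1 k] at hs
      exact absurd hs (by simp)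
    have h2 : s' ≠ t k := by
      rintro rfl
      rw [ht1 k] at hs'
      exact absurd hs' (by simp)
    have : s = s' := by
      cases s <;> cases s' <;> cases h' : t k <;> simp_all
    rw [this]
  let τ0 : K → K := fun k => (a' (out k)).1
  have hfa' : ∀ k, f (a' (out k)) = false := by
    intro k
    rw [hfa, hfout]
    rfl
  have hinj : Function.Injective τ0 := by
    intro k k' h
    have h1 : a' (out k) = a' (out k') := huniq0 _ _ (hfa' k) (hfa' k') h
    have h2 : out k = out k' := ha'.injective h1
    exact congrArg Prod.fst h2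
  let τ : Equiv.Perm K := Equiv.ofBijective τ0 (Finite.injective_iff_bijective.mp hinj)
  have hv : ∀ κ : K × Bool, tau2Base A B κ = (φ.symm κ).1.1 := by
    intro κ
    have := hφ (φ.symm κ)
    rw [Equiv.apply_symm_apply] at this
    exact this
  let a1 : K → V := fun k => tau2Base A B (k, t k)
  let b1 : K → V := fun k => tau2Base A B (k, !(t k))
  have hedge : ∀ k, s(a1 k, b1 (τ k)) = (φ.symm (out k)).1.2 := by
    intro k
    have h1 : a1 k = (φ.symm (out k)).1.1 := hv (out k)
    have h2 : b1 (τ k) = (a (φ.symm (out k))).1.1 := by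
      have h3 : (τ k, !(t (τ k))) = a' (out k) := huniq0 _ _ (ht2 _) (hfa' k) rfl
      have h4 : b1 (τ k) = tau2Base A B (a' (out k)) := by rw [← h3]
      rw [h4, hv (a' (out k))]
      simp only [a', Equiv.symm_apply_apply]
    rw [h1, h2]
    exact haspec _
  refine ⟨a1, b1, τ, ?_, ?_, ?_⟩
  · intro k
    simp only [a1, b1, tau2Base]
    cases t k with
    | true => left; simp
    | false => right; simp
  · intro k k' h
    simp only at h
    rw [hedge k, hedge k'] at h
    rcases hsame _ _ h with h1 | h1
    · have h2 := φ.symm.injective h1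
      exact congrArg Prod.fst h2
    · exfalso
      have h2 : out k' = a' (out k) := by
        have h3 := congrArg φ h1
        rw [Equiv.apply_symm_apply] at h3
        exact h3
      have h3 := hfout k'
      rw [h2, hfa' k] at h3
      exact absurd h3 (by simp)
  · ext e
    rw [mem_image]
    constructor
    · rintro ⟨k, _, rfl⟩
      rw [hedge k]
      exact (φ.symm (out k)).2.1
    · intro he
      obtain ⟨x, hx⟩ : ∃ x, x ∈ e := by
        induction e with
        | _ x y => exact ⟨x, by simp⟩
      let d : D := ⟨(x, e), he, hx⟩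
      cases h : f (φ d) with
      | true =>
        refine ⟨(φ d).1, mem_univ _, ?_⟩
        rw [hedge, ← huniq1 _ h, Equiv.symm_apply_apply]
      | false =>
        have h1 : f (φ (a d)) = true := by
          have h2 : a' (φ d) = φ (a d) := by simp only [a', Equiv.symm_apply_apply]
          rw [← h2, hfa, h]
          rfl
        refine ⟨(φ (a d)).1, mem_univ _, ?_⟩
        rw [hedge, ← huniq1 _ h1, Equiv.symm_apply_apply]

end TFB
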