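import Mathlib
import Pool.Agent.TFA.Tau
import Pool.Agent.TFB.Defs
import Pool.Agent.TFB.RmU
import Pool.Agent.TFB.LtB
import Pool.Agent.TFB.Tau2
import Pool.Agent.TFB.Lab
import Pool.Agent.TFB.NewV
import Pool.Agent.TFB.ItInj
import Pool.Agent.TFB.St
import Pool.Agent.TFB.Nw

/-!
TFB/AbsOneB (difficulty 4, helper95). Absorber of one balanced leftover with requests.
-/

set_option autoImplicit false

namespace TFB

open Finset TFA
open Pool.Agent.OBX (IsPath IsLink Mem Real RealL pit ends rends Sep)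

variable {V C : Type} [Fintype V] [DecidableEq V] [DecidableEq C]

theorem absOneB_sum {K V : Type} [Fintype K] [DecidableEq V] (f g : K → V) (x : V) :
    (univ.filter (fun k : K ⊕ K => Sum.elim f g k = x)).card =
      (univ.filter (fun κ => f κ = x)).card + (univ.filter (fun κ => g κ = x)).card := by
  classical
  have h : (univ.filter (fun k : K ⊕ K => Sum.elim f g k = x)) =
      (univ.filter (fun κ => f κ = x)).disjSum (univ.filter (fun κ => g κ = x)) := by
    ext k
    rcases k with κ | κ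
    · simp
    · simp
  rw [h, card_disjSum]

theorem absOneB_sub {T : Type} (Q : Finset T) (P : T → Prop) [DecidablePred P] :
    (univ.filter (fun κ : {r // r ∈ Q} => P κ.1)).card = (Q.filter P).card := by
  classical
  apply Finset.card_bij (fun κ _ => κ.1)
  · intro κ hκ
    rw [mem_filter] at hκ ⊢
    exact ⟨κ.2, hκ.2⟩
  · intro κ _ κ' _ h
    exact Subtype.ext h
  · intro r hr
    rw [mem_filter] at hr
    exact ⟨⟨r, hr.1⟩, mem_filter.2 ⟨mem_univ _, hr.2⟩, rfl⟩

theorem absOneB_uW {V C K : Type} [DecidableEq V] [Fintype K] {W : Finset V} {Γ : Finset C}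
    {d : Dat V C K} (h : Ok W Γ d) (o : (K ⊕ K) × Fin 4) :
    d.u o ∈ W ∪ univ.image d.f ∧ d.w o ∈ W ∪ univ.image d.f := by
  have hf : ∀ i, d.f i ∈ W ∪ univ.image d.f := fun i =>
    mem_union_right _ (mem_image_of_mem _ (mem_univ _))
  have ha : ∀ k, d.a k ∈ W ∪ univ.image d.f := fun k => mem_union_left _ (h.aW k)
  have hb : ∀ k, d.b k ∈ W ∪ univ.image d.f := fun k => mem_union_left _ (h.bW k)
  have hp : ∀ k, d.np k ∈ W ∪ univ.image d.f := by
    rintro (κ | κ)
    · exact hf _
    · exact hf _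
  have hm : ∀ k, d.nm k ∈ W ∪ univ.image d.f := by
    rintro (κ | κ)
    · exact hf _
    · exact hf _
  rcases o with ⟨k, j⟩
  fin_cases j
  · exact ⟨ha _, hp _⟩
  · exact ⟨hm _, hb _⟩
  · exact ⟨hf _, ha _⟩
  · exact ⟨hf _, hf _⟩

theorem absOneB {G : SimpleGraph V} {k kc b : ℕ} (hG : Host G k) (hC : HostC C kc)
    (W : Finset V) (Γ : Finset C) (Lo : Finset (Item V C)) (Q : Finset (C × V × V))
    (hL : LfB G W Γ b Lo Q)
    (hW : W.card + wB b ≤ k) (hΓ : Γ.card + cB b ≤ kc) :
    ∃ (W' : Finset V) (Γ' : Finset C) (R : Finset (Item V C)) (D : List (C × Mem V)),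
      TFA.Step G W Γ W' Γ' R ∧
      W'.card ≤ W.card + wB b ∧ Γ'.card ≤ Γ.card + cB b ∧
      R.card ≤ rB b ∧ D.length ≤ rB b ∧ Mk D R ∧ RM D R ∧ Abz D R Lo Q := by
  classical
  obtain ⟨v, hv1, hv2⟩ := lab Q Lo.toRight hL.hcol
  have hwb : wB b = 49 * b + 1 := rfl
  have hcb : cB b = 26 * b := rfl
  have hrb : rB b = 239 * b := rfl
  have hKc : Fintype.card {r // r ∈ Q} ≤ b := by
    rw [Fintype.card_coe]
    exact hL.hb
  have hnd : ∀ e ∈ Lo.toLeft, ¬ e.IsDiag := by
    intro e he
    exact G.not_isDiag_of_mem_edgeSet (hL.hG e (mem_toLeft.mp he))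
  have hvL : ∀ κ : {r // r ∈ Q}, (v κ, κ.1.1) ∈ Lo.toRight := by
    intro κ
    rw [← hv2]
    exact mem_image_of_mem _ (mem_univ _)
  have hvW : ∀ κ : {r // r ∈ Q}, v κ ∈ W := fun κ => (hL.hL _ (mem_toRight.mp (hvL κ))).1
  have hvc : ∀ x, (univ.filter (fun κ : {r // r ∈ Q} => v κ = x)).card =
      (Lo.toRight.filter (fun p => p.1 = x)).card := by
    intro x
    have h1 : (Lo.toRight.filter (fun p => p.1 = x)) =
        (univ.filter (fun κ : {r // r ∈ Q} => v κ = x)).image
          (fun κ : {r // r ∈ Q} => (v κ, κ.1.1)) := by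
      rw [← hv2]
      ext p
      simp only [mem_filter, mem_image, mem_univ, true_and]
      constructor
      · rintro ⟨⟨κ, rfl⟩, h⟩
        exact ⟨κ, h, rfl⟩
      · rintro ⟨κ, h, rfl⟩
        exact ⟨⟨κ, rfl⟩, h⟩
    rw [h1, card_image_of_injective _ hv1]
  obtain ⟨a, b', ρ, hab, hinj, himg⟩ := tau2 Lo.toLeft hnd (K := {r // r ∈ Q} ⊕ {r // r ∈ Q})
    (Sum.elim (fun κ => κ.1.2.1) v) (Sum.elim (fun κ => κ.1.2.2) v) (by
      intro x
      have h1 := absOneB_sum (fun κ : {r // r ∈ Q} => κ.1.2.1) v x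
      have h2 := absOneB_sum (fun κ : {r // r ∈ Q} => κ.1.2.2) v x
      have h3 := absOneB_sub Q (fun r => r.2.1 = x)
      have h4 := absOneB_sub Q (fun r => r.2.2 = x)
      have h5 := hL.hdeg x
      have h6 := hvc x
      rw [h1, h2, h3, h4, h5, h6]
      ring)
  obtain ⟨γ, hγ1, hγ2⟩ := newC hC Γ (K2 := {r // r ∈ Q} ⊕ {r // r ∈ Q}) (by
    rw [Fintype.card_sum]
    omega)
  obtain ⟨f, hf1, hf2, hAd⟩ := newV hG W a b' ρ (fun κ : {r // r ∈ Q} => κ.1.1) γ (by omega)
  obtain ⟨d, hd⟩ : ∃ d : Dat V C {r // r ∈ Q}, d = ⟨a, b', ρ, fun κ => κ.1.1, γ, f⟩ := ⟨_, rfl⟩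
  have hAd' : Ad G d := by rw [hd]; exact hAd
  have hda : d.a = a := by rw [hd]
  have hdb : d.b = b' := by rw [hd]
  have hdρ : d.ρ = ρ := by rw [hd]
  have hdc : ∀ κ, d.c κ = κ.1.1 := fun κ => by rw [hd]
  have hdγ : d.γ = γ := by rw [hd]
  have hdf : d.f = f := by rw [hd]
  have hr1 : ∀ κ, a (Sum.inr κ) = v κ := by
    intro κ
    rcases hab (Sum.inr κ) with h | h
    · exact h.1
    · exact h.1
  have hr2 : ∀ κ, b' (Sum.inr κ) = v κ := by
    intro κ
    rcases hab (Sum.inr κ) with h | h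
    · exact h.2
    · exact h.2
  have hl : ∀ κ, (a (Sum.inl κ) = κ.1.2.1 ∧ b' (Sum.inl κ) = κ.1.2.2) ∨
      (a (Sum.inl κ) = κ.1.2.2 ∧ b' (Sum.inl κ) = κ.1.2.1) := fun κ => hab (Sum.inl κ)
  have hOk : Ok W Γ d := by
    refine ⟨?_, ?_, ?_, ?_, ?_, ?_, ?_, ?_, ?_, ?_, ?_, ?_⟩
    · rw [hda]
      rintro (κ | κ)
      · rcases hl κ with h | h
        · rw [h.1]; exact (hL.hQ _ κ.2).2.1
        · rw [h.1]; exact (hL.hQ _ κ.2).2.2.1
      · rw [hr1]; exact hvW κ
    · rw [hdb]
      rintro (κ | κ)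
      · rcases hl κ with h | h
        · rw [h.2]; exact (hL.hQ _ κ.2).2.2.1
        · rw [h.2]; exact (hL.hQ _ κ.2).2.1
      · rw [hr2]; exact hvW κ
    · intro κ
      rw [hda, hdb]
      rcases hl κ with h | h
      · rw [h.1, h.2]; exact (hL.hQ _ κ.2).2.2.2
      · rw [h.1, h.2]; exact (hL.hQ _ κ.2).2.2.2.symm
    · intro κ
      rw [hda, hdb, hr1, hr2]
    · intro k
      rw [hda, hdb, hdρ]
      intro h
      have h1 : s(a k, b' (ρ k)) ∈ Lo.toLeft := by
        rw [← himg]
        exact mem_image_of_mem _ (mem_univ _)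
      apply hnd _ h1
      rw [Sym2.mk_isDiag_iff]
      exact h
    · rw [hda, hdb, hdρ]
      exact hinj
    · intro κ κ' h
      simp only [hda, hr1, hdc] at h
      exact hv1 h
    · intro κ
      rw [hdc]
      exact (hL.hQ _ κ.2).1
    · rw [hdγ]; exact hγ1
    · rw [hdγ]; exact hγ2
    · rw [hdf]; exact hf1
    · rw [hdf]; exact hf2
  have hII := itInj hOk
  -- cards
  have hcN : Fintype.card (Nv {r // r ∈ Q}) = 9 * Fintype.card {r // r ∈ Q} := by
    simp only [Nv, Fintype.card_sum, Fintype.card_prod, Fintype.card_fin]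
    ring
  have hcO : Fintype.card (({r // r ∈ Q} ⊕ {r // r ∈ Q}) × Fin 4) =
      8 * Fintype.card {r // r ∈ Q} := by
    rw [Fintype.card_prod, Fintype.card_sum, Fintype.card_fin]
    ring
  have hW1c : (W ∪ univ.image d.f).card ≤ W.card + 9 * Fintype.card {r // r ∈ Q} := by
    refine (card_union_le _ _).trans ?_
    have h1 : (univ.image d.f).card ≤ Fintype.card (Nv {r // r ∈ Q}) := card_image_le
    omega
  have hΓ1c : (Γ ∪ univ.image d.γ).card ≤ Γ.card + 2 * Fintype.card {r // r ∈ Q} := by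
    refine (card_union_le _ _).trans ?_
    have h1 : (univ.image d.γ).card ≤ Fintype.card ({r // r ∈ Q} ⊕ {r // r ∈ Q}) := card_image_le
    rw [Fintype.card_sum] at h1
    omega
  obtain ⟨W', Γ', T, DT, hS, hW'c, hΓ'c, hTc, hDTc, hMkT, hRA, hRB⟩ := ltB hG hC
    (W ∪ univ.image d.f) (Γ ∪ univ.image d.γ) d.u d.w d.π (fun o => (absOneB_uW hOk o).1)
    (fun o => (absOneB_uW hOk o).2) (uw_ne hOk) (uw_ne' hOk)
    (by
      intro o o' h
      have h1 : IT d (Ix.F o.1 o.2) = IT d (Ix.F o'.1 o'.2) := congrArg Sum.inl h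
      have h2 := hII h1
      injection h2 with h3 h4
      exact Prod.ext h3 h4)
    (by
      intro o o' h
      have h1 : IT d (Ix.N o.1 o.2) = IT d (Ix.N o'.1 o'.2) := congrArg Sum.inl h
      have h2 := hII h1
      injection h2 with h3 h4
      exact Prod.ext h3 h4)
    (by
      intro o o' h
      have h1 : IT d (Ix.F o.1 o.2) = IT d (Ix.N o'.1 o'.2) := congrArg Sum.inl h
      have h2 := hII h1
      cases h2)
    (by rw [hcO]; omega) (by rw [hcO]; omega)
  rw [hcO] at hW'c hΓ'c hTc hDTc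
  rw [← s0_t] at hRA
  rw [← s1_t] at hRB
  have hInmono : ∀ i : Item V C, In (W ∪ univ.image d.f) (Γ ∪ univ.image d.γ) i → In W' Γ' i :=
    fun i hi => lt_in_mono hS.hW hS.hΓ i hi
  have hInmono0 : ∀ i : Item V C, In W Γ i → In (W ∪ univ.image d.f) (Γ ∪ univ.image d.γ) i :=
    fun i hi => lt_in_mono subset_union_left subset_union_left i hi
  have hLft : Lft d = Lo := by
    ext i
    rcases i with e | p
    · rw [← mem_toLeft (u := Lo), ← himg]
      simp only [Lft, mem_union, mem_image, mem_univ, true_and, IT, hda, hdb, hdρ, Sum.inl.injEq,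
        reduceCtorEq, exists_false, or_false]
    · rw [← mem_toRight (u := Lo), ← hv2]
      simp only [Lft, mem_union, mem_image, mem_univ, true_and, IT, hda, hdc, hr1, Sum.inr.injEq,
        reduceCtorEq, exists_false, false_or]
  have hdis : ∀ X : Finset (Item V C), X ⊆ ND d ∪ Lo → Disjoint X T := by
    intro X hX
    rw [disjoint_left]
    intro i hi hiT
    apply hS.hnew i hiT
    rcases mem_union.1 (hX hi) with h | h
    · exact nd_in hOk i h
    · exact hInmono0 i (hL.hL i h)
  have hun0 := s0_un d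
  have hun1 := s1_un d
  rw [hLft] at hun1
  -- the lists
  have hDDlen : (DD d).length = 3 * Fintype.card {r // r ∈ Q} := by
    unfold DD
    rw [List.length_map, length_toList, card_univ, Fintype.card_sum, Fintype.card_sum]
    ring
  have hR0 : RM (DD d) (univ.biUnion (fun i => S0 d (Lb.m i))) := by
    have h1 := rm_map (univ : Finset ({r // r ∈ Q} ⊕ ({r // r ∈ Q} ⊕ {r // r ∈ Q}))).toList
      (nodup_toList _) (mem d) (fun i => S0 d (Lb.m i)) (fun i _ => s0_path hOk i)
      (fun i _ j _ hij => s0_dis hOk _ _ (fun h => hij (by injection h)))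
    rw [toList_toFinset] at h1
    exact h1
  have hR1 : RM (DD d) (univ.biUnion (fun i => S1 d (Lb.m i))) := by
    have h1 := rm_map (univ : Finset ({r // r ∈ Q} ⊕ ({r // r ∈ Q} ⊕ {r // r ∈ Q}))).toList
      (nodup_toList _) (mem d) (fun i => S1 d (Lb.m i)) (fun i _ => s1_path hOk i)
      (fun i _ j _ hij => s1_dis hOk _ _ (fun h => hij (by injection h)))
    rw [toList_toFinset] at h1
    exact h1
  have hsub1m : univ.biUnion (fun i => S1 d (Lb.m i)) ⊆ ND d ∪ Lo := by
    rw [← hun1]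
    exact subset_union_left.trans subset_union_left
  have hsub1t : S1 d Lb.t ⊆ ND d ∪ Lo := by
    rw [← hun1]
    exact subset_union_right.trans subset_union_left
  have hsub1z : ∀ κ, S1 d (Lb.z κ) ⊆ ND d ∪ Lo := by
    intro κ
    rw [← hun1]
    exact (subset_biUnion_of_mem (fun κ => S1 d (Lb.z κ)) (mem_univ κ)).trans subset_union_right
  refine ⟨W', Γ', ND d ∪ T, DD d ++ DT, ?_, ?_, ?_, ?_, ?_, ?_, ?_, ?_⟩
  · refine ⟨subset_union_left.trans hS.hW, subset_union_left.trans hS.hΓ, ?_, ?_, ?_⟩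
    · intro i hi
      rcases mem_union.1 hi with hi | hi
      · exact hInmono i (nd_in hOk i hi)
      · exact hS.hin i hi
    · intro i hi
      rcases mem_union.1 hi with hi | hi
      · exact nd_new hOk i hi
      · intro h
        exact hS.hnew i hi (hInmono0 i h)
    · intro e he
      rcases mem_union.1 he with he | he
      · exact nd_G hAd' e he
      · exact hS.hG e he
  · omega
  · omega
  · have h1 := card_union_le (ND d) T
    have h2 := nd_card d
    omega
  · rw [List.length_append]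
    omega
  · exact mk_app (dd_mk hOk) hMkT (hdis _ subset_union_left)
  · have e1 : ND d ∪ T = univ.biUnion (fun i => S0 d (Lb.m i)) ∪ (S0 d Lb.t ∪ T) := by
      rw [← hun0, union_assoc]
    rw [e1]
    apply rm_app hR0 hRA
    rw [disjoint_union_right]
    constructor
    · rw [disjoint_biUnion_left]
      intro i _
      exact s0_dis hOk _ _ (fun h => by cases h)
    · apply hdis
      rw [← hun0]
      exact subset_union_left.trans subset_union_left
  · refine ⟨univ.biUnion (fun i => S1 d (Lb.m i)) ∪ (S1 d Lb.t ∪ T),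
      fun r => if h : r ∈ Q then S1 d (Lb.z ⟨r, h⟩) else ∅, ?_, ?_, ?_, ?_, ?_⟩
    · apply rm_app hR1 hRB
      rw [disjoint_union_right]
      constructor
      · rw [disjoint_biUnion_left]
        intro i _
        exact s1_dis hOk _ _ (fun h => by cases h)
      · exact hdis _ hsub1m
    · intro r hr
      simp only [dif_pos hr]
      have h1 := s1_link hOk ⟨r, hr⟩ r.2.1 r.2.2 (by
        rw [hda, hdb]
        exact hl ⟨r, hr⟩)
      rw [hdc] at h1
      exact h1
    · intro r hr
      simp only [dif_pos hr]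
      rw [disjoint_union_left, disjoint_union_left, disjoint_biUnion_left]
      refine ⟨?_, ?_, ?_⟩
      · intro i _
        exact s1_dis hOk _ _ (fun h => by cases h)
      · exact s1_dis hOk _ _ (fun h => by cases h)
      · exact (hdis _ (hsub1z _)).symm
    · intro r hr r' hr' hne
      simp only [dif_pos hr, dif_pos hr']
      apply s1_dis hOk
      intro h
      injection h with h1
      exact hne (congrArg Subtype.val h1)
    · have e2 : Q.biUnion (fun r => if h : r ∈ Q then S1 d (Lb.z ⟨r, h⟩) else ∅) =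
          univ.biUnion (fun κ => S1 d (Lb.z κ)) := by
        ext i
        simp only [mem_biUnion, mem_univ, true_and]
        constructor
        · rintro ⟨r, hr, hi⟩
          rw [dif_pos hr] at hi
          exact ⟨⟨r, hr⟩, hi⟩
        · rintro ⟨κ, hi⟩
          refine ⟨κ.1, κ.2, ?_⟩
          rw [dif_pos κ.2]
          exact hi
      rw [e2]
      have e3 : ND d ∪ T ∪ Lo = (ND d ∪ Lo) ∪ T := by
        rw [union_assoc, union_comm T Lo, ← union_assoc]
      rw [e3, ← hun1]
      ext i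
      simp only [mem_union]
      tauto

end TFB
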