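import Mathlib
import Pool.Agent.TFB.Defs
import Pool.Agent.TFB.RmU
import Pool.Agent.TFB.AbsOneB

/-!
TFB/AllB (difficulty 3). One absorber for a finite family of leftovers with requests: adaptation of
TFA/AllAbs (file Pool/Agent/TFA/AllAbs.lean in /team-store/tfa_all.tgz).
Proof: `Finset.induction_on LL`. `∅`: `W, Γ, ∅, []` (`RM.nil`, `mk_nil`). Step `insert p0 LL`: the induction
hypothesis gives `W1, Γ1, R1, D1`; apply `absOneB` with `(W1, Γ1)` to `p0` (`LfB G W1 Γ1 b` by
monotonicity of `In` and of the sets): `W', Γ', R0, D0`. `R := R1 ∪ R0`, `D := D1 ++ D0`. `Step` composes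
(as in TFA/AllAbs). `Mk`: `mk_app`; `RM D R`: `rm_app` (`R1` is `In W1 Γ1`, `R0` is not).
For `p ∈ LL`: `Abz D1 R1 p.1 p.2` gives `Y1, z`; take `Y1 ∪ R0` and the same `z`: `Y1` and all `z r` are
contained in `R1 ∪ p.1`, which is `In W1 Γ1`, so disjoint from `R0`; `rm_app`; the union is
`(R1 ∪ p.1) ∪ R0 = (R1 ∪ R0) ∪ p.1`. For `p0`: `Abz D0 R0 p0.1 p0.2` gives `Y0, z`; take `R1 ∪ Y0` and `z`:
`Y0`, `z r ⊆ R0 ∪ p0.1`; `R1` is disjoint from `R0` (above) and from `p0.1` (`In W Γ`, but `R1` is new).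
-/

set_option autoImplicit false

namespace TFB

open Finset TFA
open Pool.Agent.OBX (IsPath IsLink Mem Real RealL pit ends rends Sep)

variable {V C : Type} [Fintype V] [DecidableEq V] [DecidableEq C]

theorem allb_mono {V C : Type} {W W' : Finset V} {Γ Γ' : Finset C} (hW : W ⊆ W') (hΓ : Γ ⊆ Γ')
    {i : Item V C} (h : In W Γ i) : In W' Γ' i := by
  rcases i with e | p
  · intro x hx
    exact hW (h x hx)
  · exact ⟨hW h.1, hΓ h.2⟩

omit [Fintype V] in
theorem allb_lfb {G : SimpleGraph V} {W W' : Finset V} {Γ Γ' : Finset C} {b : ℕ}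
    {Lo : Finset (Item V C)} {Q : Finset (C × V × V)} (hW : W ⊆ W') (hΓ : Γ ⊆ Γ')
    (h : LfB G W Γ b Lo Q) : LfB G W' Γ' b Lo Q where
  hL := fun i hi => allb_mono hW hΓ (h.hL i hi)
  hG := h.hG
  hQ := fun r hr => ⟨hΓ (h.hQ r hr).1, hW (h.hQ r hr).2.1, hW (h.hQ r hr).2.2.1, (h.hQ r hr).2.2.2⟩
  hdeg := h.hdeg
  hcol := h.hcol
  hb := h.hb

omit [Fintype V] in
theorem allb_right {D D' : List (C × Mem V)} {R R' Lo : Finset (Item V C)} {Q : Finset (C × V × V)}
    (h : Abz D R Lo Q) (h' : RM D' R') (hd : Disjoint (R ∪ Lo) R') :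
    Abz (D ++ D') (R ∪ R') Lo Q := by
  obtain ⟨Y, z, hY, hz, hYz, hzz, hun⟩ := h
  have hYs : Y ⊆ R ∪ Lo := by
    rw [← hun]; exact subset_union_left
  have hzs : ∀ r ∈ Q, z r ⊆ R ∪ Lo := by
    intro r hr
    rw [← hun]
    exact (subset_biUnion_of_mem z hr).trans subset_union_right
  refine ⟨Y ∪ R', z, rm_app hY h' (disjoint_of_subset_left hYs hd), hz, ?_, hzz, ?_⟩
  · intro r hr
    rw [disjoint_union_left]
    exact ⟨hYz r hr, (disjoint_of_subset_left (hzs r hr) hd).symm⟩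
  · rw [union_right_comm Y R', hun, union_right_comm R Lo R']

omit [Fintype V] in
theorem allb_left {D D' : List (C × Mem V)} {R R' Lo : Finset (Item V C)} {Q : Finset (C × V × V)}
    (h : Abz D R Lo Q) (h' : RM D' R') (hd : Disjoint (R ∪ Lo) R') :
    Abz (D' ++ D) (R' ∪ R) Lo Q := by
  obtain ⟨Y, z, hY, hz, hYz, hzz, hun⟩ := h
  have hYs : Y ⊆ R ∪ Lo := by
    rw [← hun]; exact subset_union_left
  have hzs : ∀ r ∈ Q, z r ⊆ R ∪ Lo := by
    intro r hr
    rw [← hun]
    exact (subset_biUnion_of_mem z hr).trans subset_union_right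
  refine ⟨R' ∪ Y, z, rm_app h' hY (disjoint_of_subset_left hYs hd).symm, hz, ?_, hzz, ?_⟩
  · intro r hr
    rw [disjoint_union_left]
    exact ⟨(disjoint_of_subset_left (hzs r hr) hd).symm, hYz r hr⟩
  · rw [union_assoc, hun, union_assoc]

theorem allB {G : SimpleGraph V} {k kc b : ℕ} (hG : Host G k) (hC : HostC C kc)
    (W : Finset V) (Γ : Finset C) (LL : Finset (Finset (Item V C) × Finset (C × V × V)))
    (hL : ∀ p ∈ LL, LfB G W Γ b p.1 p.2)
    (hW : W.card + LL.card * wB b ≤ k) (hΓ : Γ.card + LL.card * cB b ≤ kc) :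
    ∃ (W' : Finset V) (Γ' : Finset C) (R : Finset (Item V C)) (D : List (C × Mem V)),
      TFA.Step G W Γ W' Γ' R ∧
      W'.card ≤ W.card + LL.card * wB b ∧ Γ'.card ≤ Γ.card + LL.card * cB b ∧
      R.card ≤ LL.card * rB b ∧ D.length ≤ LL.card * rB b ∧ Mk D R ∧ RM D R ∧
      ∀ p ∈ LL, Abz D R p.1 p.2 := by
  induction LL using Finset.induction_on with
  | empty =>
    refine ⟨W, Γ, ∅, [], ⟨Subset.refl _, Subset.refl _, ?_, ?_, ?_⟩, ?_, ?_, ?_, ?_, mk_nil _,
      RM.nil, ?_⟩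
    · intro i hi
      exact absurd hi (notMem_empty i)
    · intro i hi
      exact absurd hi (notMem_empty i)
    · intro e he
      exact absurd he (notMem_empty _)
    · simp
    · simp
    · simp
    · simp
    · intro p hp
      exact absurd hp (notMem_empty p)
  | insert p0 LL hp0 ih =>
    have hcard : (insert p0 LL).card = LL.card + 1 := card_insert_of_notMem hp0
    rw [hcard] at hW hΓ
    have e1 : ∀ x : ℕ, (LL.card + 1) * x = LL.card * x + x := fun x => by ring
    rw [e1] at hW hΓ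
    obtain ⟨W1, Γ1, R1, D1, hS1, hWc1, hΓc1, hRc1, hDl1, hM1, hRM1, hA1⟩ := ih
      (fun p hp => hL p (mem_insert_of_mem hp)) (by omega) (by omega)
    have hL0 := hL p0 (mem_insert_self _ _)
    obtain ⟨W', Γ', R0, D0, hS0, hWc0, hΓc0, hRc0, hDl0, hM0, hRM0, hA0⟩ := absOneB hG hC W1 Γ1
      p0.1 p0.2 (allb_lfb hS1.hW hS1.hΓ hL0) (by omega) (by omega)
    have hdisj : Disjoint R1 R0 := by
      rw [disjoint_left]
      intro i hi hi'
      exact hS0.hnew i hi' (hS1.hin i hi)
    refine ⟨W', Γ', R1 ∪ R0, D1 ++ D0, ⟨hS1.hW.trans hS0.hW, hS1.hΓ.trans hS0.hΓ, ?_, ?_, ?_⟩,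
      ?_, ?_, ?_, ?_, mk_app hM1 hM0 hdisj, rm_app hRM1 hRM0 hdisj, ?_⟩
    · intro i hi
      rcases mem_union.1 hi with h | h
      · exact allb_mono hS0.hW hS0.hΓ (hS1.hin i h)
      · exact hS0.hin i h
    · intro i hi hin
      rcases mem_union.1 hi with h | h
      · exact hS1.hnew i h hin
      · exact hS0.hnew i h (allb_mono hS1.hW hS1.hΓ hin)
    · intro e he
      rcases mem_union.1 he with h | h
      · exact hS1.hG e h
      · exact hS0.hG e h
    · rw [hcard, e1]
      omega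
    · rw [hcard, e1]
      omega
    · rw [hcard, e1]
      have h2 := card_union_le R1 R0
      omega
    · rw [hcard, e1, List.length_append]
      omega
    · intro p hp
      rcases mem_insert.1 hp with h | h
      · subst h
        refine allb_left hA0 hRM1 ?_
        rw [disjoint_left]
        intro i hi hi'
        rcases mem_union.1 hi with h3 | h3
        · exact hS0.hnew i h3 (hS1.hin i hi')
        · exact hS1.hnew i hi' (hL0.hL i h3)
      · refine allb_right (hA1 p h) hRM0 ?_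
        rw [disjoint_left]
        intro i hi hi'
        rcases mem_union.1 hi with h3 | h3
        · exact hS0.hnew i hi' (hS1.hin i h3)
        · exact hS0.hnew i hi' (allb_mono hS1.hW hS1.hΓ ((hL p (mem_insert_of_mem h)).hL i h3))

end TFB
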