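import Mathlib
import Pool.Agent.TFB.Defs

/-!
TFB/MsU (difficulty 2). Facts on the members of one colour `msd D c = (D.filter (·.1 = c)).map Prod.snd`.
Proof. `ms_mem`: `List.mem_map`, `List.mem_filter`. `ms_len`: `List.length_filter_le`.
`ms_sum`: induction on `D`: `msd ((c', m) :: D) c = if c' = c then m :: msd D c else msd D c`, so
`∑ c, ends (msd ((c',m)::D) c) v = (if m.1 = v then 1 else 0) + (if m.2.1 = v then 1 else 0) +
∑ c, ends (msd D c) v` (`Finset.sum_add_distrib`, `Finset.sum_ite_eq`).
`ms_sep`: `Sep ms := (∀ m ∈ ms, 1 ≤ m.2.2 ∧ (m.1 = m.2.1 ↔ m.2.2 = 1)) ∧ ms.Pairwise (all ends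
different)`: both sides of the iff are false (`2 ≤ size`, ends different); the pairwise part:
`List.pairwise_map`, `List.Pairwise.filter` and both colours are `c` (use
`List.Pairwise.imp_of_mem` or `List.pairwise_filter`).
-/

set_option autoImplicit false

namespace TFB

open Finset TFA
open Pool.Agent.OBX (IsPath IsLink Mem Real RealL pit ends rends Sep)

variable {V C : Type} [DecidableEq V] [DecidableEq C]

omit [DecidableEq V] in
theorem ms_mem (D : List (C × Mem V)) (c : C) (m : Mem V) : m ∈ msd D c ↔ (c, m) ∈ D := by
  unfold msd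
  rw [List.mem_map]
  constructor
  · rintro ⟨p, hp, rfl⟩
    rw [List.mem_filter] at hp
    obtain ⟨h1, h2⟩ := hp
    have h3 : p.1 = c := by simpa using h2
    rw [← h3]
    exact h1
  · intro h
    exact ⟨(c, m), List.mem_filter.2 ⟨h, by simp⟩, rfl⟩

omit [DecidableEq V] in
theorem ms_len (D : List (C × Mem V)) (c : C) : (msd D c).length ≤ D.length := by
  unfold msd
  rw [List.length_map]
  exact List.length_filter_le _ _

omit [DecidableEq V] in
theorem msu_cons (p : C × Mem V) (D : List (C × Mem V)) (c : C) :
    msd (p :: D) c = if p.1 = c then p.2 :: msd D c else msd D c := by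
  unfold msd
  by_cases h : p.1 = c
  · rw [List.filter_cons_of_pos (by simpa using h), List.map_cons, if_pos h]
  · rw [List.filter_cons_of_neg (by simpa using h), if_neg h]

theorem ms_sum [Fintype C] (D : List (C × Mem V)) (v : V) :
    ∑ c, ends (msd D c) v ≤ 2 * D.length := by
  induction D with
  | nil => simp [msd, ends]
  | cons p D ih =>
    have h1 : ∀ c, ends (msd (p :: D) c) v =
        (if p.1 = c then (if p.2.1 = v then 1 else 0) + (if p.2.2.1 = v then 1 else 0) else 0) +
          ends (msd D c) v := by
      intro c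
      rw [msu_cons]
      split_ifs with h <;> simp [ends, *]
    rw [Finset.sum_congr rfl (fun c _ => h1 c), Finset.sum_add_distrib, Finset.sum_ite_eq,
      if_pos (Finset.mem_univ _), List.length_cons]
    have h2 : (if p.2.1 = v then 1 else 0) + (if p.2.2.1 = v then 1 else 0) ≤ 2 := by
      split_ifs <;> omega
    omega

theorem ms_sep {D : List (C × Mem V)} {T : Finset (Item V C)} (h : Mk D T) (c : C) :
    Sep (msd D c) := by
  obtain ⟨h1, h2⟩ := h
  refine ⟨?_, ?_⟩
  · intro m hm
    rw [ms_mem] at hm
    obtain ⟨h3, h4, h5, -, -⟩ := h1 _ hm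
    refine ⟨by simp only at h4; omega, ?_⟩
    constructor
    · intro h6
      exact absurd h6 h3
    · intro h6
      simp only at h4
      omega
  · unfold msd
    rw [List.pairwise_map, List.pairwise_filter]
    refine h2.imp ?_
    intro p q hpq hp hq
    have hp' : p.1 = c := by simpa using hp
    have hq' : q.1 = c := by simpa using hq
    exact hpq (hp'.trans hq'.symm)

end TFB
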