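import Mathlib
import Pool.Agent.TFB.Defs

/-!
TFB/RmSplit (difficulty 3). A realization of the list splits by colours.
Proof: induction on `RM D Y`. `nil`: `Yc c = ∅`, `Real c [] ∅` (`q` arbitrary, `range 0`).
`cons c m D q S`: from `Yc` for `S` take `Yc' := Function.update Yc c (q ∪ Yc c)`. For the colour `c`:
`msd ((c,m)::D) c = m :: msd D c` and `Real c (m :: ms) (q ∪ Y)` from `Real c ms Y`, the path `q`, and
`Disjoint q Y` (the realizing family `q' 0 = q`, `q' (i+1) = q_old i`; note that every `q_old i` with
`i < length` is contained in `Y`). Prove this as a helper lemma `rmSplit_cons`. For `d ≠ c`: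
`msd ((c,m)::D) d = msd D d` and `Yc' d = Yc d`. `Disjoint q (Yc d)` since `Yc d ⊆ S`.
`univ.biUnion Yc' = q ∪ S` by `ext`.
-/

set_option autoImplicit false

namespace TFB

open Finset TFA
open Pool.Agent.OBX (IsPath IsLink Mem Real RealL pit ends rends Sep)

variable {V C : Type} [DecidableEq V] [DecidableEq C]

/-- add one member -/
theorem rmSplit_cons {c : C} {m : Mem V} {ms : List (Mem V)} {q Y : Finset (Item V C)}
    (hq : IsPath m.2.2 c m.1 m.2.1 q) (h : Real c ms Y) (hd : Disjoint q Y) : Real c (m :: ms) (q ∪ Y) := by
  obtain ⟨f, h1, h2, rfl⟩ := h
  have hsub : ∀ i < ms.length, f i ⊆ (range ms.length).biUnion f := fun i hi =>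
    subset_biUnion_of_mem f (mem_range.2 hi)
  refine ⟨fun i => Nat.casesOn i q f, ?_, ?_, ?_⟩
  · intro i hi
    cases i with
    | zero => exact hq
    | succ n => exact h1 n (by simpa using hi)
  · intro i hi j hj hij
    cases i with
    | zero =>
      cases j with
      | zero => exact absurd rfl hij
      | succ j => exact Disjoint.mono_right (hsub j (by simpa using hj)) hd
    | succ i =>
      cases j with
      | zero => exact (Disjoint.mono_right (hsub i (by simpa using hi)) hd).symm
      | succ j => exact h2 i (by simpa using hi) j (by simpa using hj) (by omega)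
  · ext x
    rw [mem_union, mem_biUnion, mem_biUnion]
    constructor
    · rintro (hx | ⟨i, hi, hx⟩)
      · exact ⟨0, by simp, hx⟩
      · refine ⟨i + 1, ?_, hx⟩
        rw [mem_range] at hi ⊢
        rw [List.length_cons]
        omega
    · rintro ⟨i, hi, hx⟩
      cases i with
      | zero => exact Or.inl hx
      | succ n =>
        right
        refine ⟨n, ?_, hx⟩
        rw [mem_range, List.length_cons] at hi
        rw [mem_range]
        omega

theorem rm_split [Fintype C] {D : List (C × Mem V)} {Y : Finset (Item V C)} (h : RM D Y) :
    ∃ Yc : C → Finset (Item V C), (∀ c, Real c (msd D c) (Yc c)) ∧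
      (∀ c d, c ≠ d → Disjoint (Yc c) (Yc d)) ∧ univ.biUnion Yc = Y := by
  induction h with
  | nil =>
    refine ⟨fun _ => ∅, fun c => ⟨fun _ => ∅, ?_, ?_, ?_⟩, fun _ _ _ => disjoint_empty_left _, ?_⟩
    · intro i hi
      exact absurd hi (by simp [msd])
    · intro i hi
      exact absurd hi (by simp [msd])
    · simp [msd]
    · ext x
      simp
  | cons c m D q S hq _ hd ih =>
    obtain ⟨Yc, h1, h2, h3⟩ := ih
    have hsub : ∀ d, Yc d ⊆ S := by
      intro d
      rw [← h3]
      exact subset_biUnion_of_mem Yc (mem_univ d)
    have hqd : ∀ d, Disjoint q (Yc d) := fun d => Disjoint.mono_right (hsub d) hd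
    refine ⟨Function.update Yc c (q ∪ Yc c), ?_, ?_, ?_⟩
    · intro d
      by_cases hdc : d = c
      · subst hdc
        rw [Function.update_self]
        have e1 : msd ((d, m) :: D) d = m :: msd D d := by
          unfold msd
          rw [List.filter_cons_of_pos (by simp), List.map_cons]
        rw [e1]
        exact rmSplit_cons hq (h1 d) (hqd d)
      · rw [Function.update_of_ne hdc]
        have e1 : msd ((c, m) :: D) d = msd D d := by
          unfold msd
          rw [List.filter_cons_of_neg (by simpa using fun h => hdc h.symm)]
        rw [e1]
        exact h1 d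
    · intro a b hab
      by_cases ha : a = c
      · subst ha
        rw [Function.update_self, Function.update_of_ne hab.symm]
        exact disjoint_union_left.2 ⟨hqd b, h2 a b hab⟩
      · rw [Function.update_of_ne ha]
        by_cases hb : b = c
        · subst hb
          rw [Function.update_self]
          exact disjoint_union_right.2 ⟨(hqd a).symm, h2 a b hab⟩
        · rw [Function.update_of_ne hb]
          exact h2 a b hab
    · ext x
      rw [mem_biUnion, mem_union]
      constructor
      · rintro ⟨d, _, hx⟩
        by_cases hdc : d = c
        · subst hdc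
          rw [Function.update_self, mem_union] at hx
          rcases hx with hx | hx
          · exact Or.inl hx
          · exact Or.inr (hsub d hx)
        · rw [Function.update_of_ne hdc] at hx
          exact Or.inr (hsub d hx)
      · rintro (hx | hx)
        · refine ⟨c, mem_univ c, ?_⟩
          rw [Function.update_self, mem_union]
          exact Or.inl hx
        · rw [← h3, mem_biUnion] at hx
          obtain ⟨d, _, hx⟩ := hx
          refine ⟨d, mem_univ d, ?_⟩
          by_cases hdc : d = c
          · subst hdc
            rw [Function.update_self, mem_union]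
            exact Or.inr hx
          · rw [Function.update_of_ne hdc]
            exact hx

end TFB
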