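import Mathlib
import Pool.Agent.TFB.Defs

/-!
TFB/RqU (difficulty 3). The requests `rq : C → List (V × V)` as a finset of triples.
`rends ms v = (ms.map (fun m => (if m.1 = v then 1 else 0) + (if m.2 = v then 1 else 0))).sum`.
Proof. `rq_mem`: `mem_biUnion`, `mem_image`. The map `r ↦ (c, r)` is injective, sets of different `c`
are disjoint; `(rq c).Nodup` from `((rq c).map Prod.fst).Nodup` (`List.Nodup.of_map`).
`rq_card`: the filter is the image of `(rq c).toFinset` under `r ↦ (c, r)`; `List.toFinset_card_of_nodup`.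
`rq_deg`: `#(filter (r.2.1 = v)) = ∑ c, #((rq c).toFinset.filter (r.1 = v))` (`card_biUnion` or
`Finset.card_eq_sum_card_fiberwise`), and for a nodup list
`(l.map (fun m => if m.1 = v then 1 else 0)).sum = #(l.toFinset.filter (·.1 = v))` (induction on `l`, or
`List.countP`); likewise for the second ends; `List.sum_map_add`, `Finset.sum_add_distrib`.
`rq_real`: `RealL c rq Y := ∃ q : ℕ → Finset _, (∀ i (h : i < rq.length), IsLink 1 c rq[i].1 rq[i].2
(q i)) ∧ pairwise disjoint ∧ Y = (range rq.length).biUnion q`: take `q i := if h : i < length then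
z (c, rq[i]) else ∅`; `rq[i] ≠ rq[j]` for `i ≠ j` by nodup.
-/

set_option autoImplicit false

namespace TFB

open Finset TFA
open Pool.Agent.OBX (IsPath IsLink Mem Real RealL pit ends rends Sep)

variable {V C : Type} [DecidableEq V] [DecidableEq C]

/-- the requests as a finset of triples -/
def rqQ [Fintype C] (rq : C → List (V × V)) : Finset (C × V × V) :=
  univ.biUnion (fun c => (rq c).toFinset.image (fun r => (c, r)))

theorem rq_mem [Fintype C] (rq : C → List (V × V)) (r : C × V × V) :
    r ∈ rqQ rq ↔ r.2 ∈ rq r.1 := by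
  unfold rqQ
  rw [mem_biUnion]
  constructor
  · rintro ⟨c, -, h⟩
    rw [mem_image] at h
    obtain ⟨s, hs, rfl⟩ := h
    exact List.mem_toFinset.1 hs
  · intro h
    exact ⟨r.1, mem_univ _, mem_image.2 ⟨r.2, List.mem_toFinset.2 h, rfl⟩⟩

theorem rqu_filter [Fintype C] (rq : C → List (V × V)) (c : C) (P : V × V → Prop) [DecidablePred P] :
    (((rqQ rq).filter (fun r => P r.2)).filter (fun r => r.1 = c)).card =
      ((rq c).toFinset.filter P).card := by
  symm
  apply Finset.card_bij (fun (r : V × V) _ => (c, r))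
  · intro r hr
    rw [mem_filter, List.mem_toFinset] at hr
    rw [mem_filter, mem_filter, rq_mem]
    exact ⟨⟨hr.1, hr.2⟩, rfl⟩
  · intro r _ s _ h
    exact (Prod.ext_iff.1 h).2
  · intro r hr
    rw [mem_filter, mem_filter, rq_mem] at hr
    obtain ⟨⟨h1, h2⟩, h3⟩ := hr
    refine ⟨r.2, ?_, ?_⟩
    · rw [mem_filter, List.mem_toFinset, ← h3]
      exact ⟨h1, h2⟩
    · rw [← h3]

theorem rq_card [Fintype C] (rq : C → List (V × V)) (h : ∀ c, ((rq c).map Prod.fst).Nodup) (c : C) :
    ((rqQ rq).filter (fun r => r.1 = c)).card = (rq c).length := by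
  have h1 := rqu_filter rq c (fun _ => True)
  rw [Finset.filter_true, Finset.filter_true] at h1
  rw [h1]
  exact List.toFinset_card_of_nodup (h c).of_map

theorem rqu_count (l : List (V × V)) (hl : l.Nodup) (P : V × V → Prop) [DecidablePred P] :
    (l.map (fun m => if P m then 1 else 0)).sum = (l.toFinset.filter P).card := by
  induction l with
  | nil => simp
  | cons a l ih =>
    rw [List.nodup_cons] at hl
    rw [List.map_cons, List.sum_cons, ih hl.2, List.toFinset_cons, Finset.filter_insert]
    split_ifs with h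
    · rw [Finset.card_insert_of_notMem]
      · omega
      · rw [mem_filter, List.mem_toFinset]
        exact fun h' => hl.1 h'.1
    · omega

theorem rqu_total [Fintype C] (rq : C → List (V × V)) (h : ∀ c, ((rq c).map Prod.fst).Nodup)
    (P : V × V → Prop) [DecidablePred P] :
    ((rqQ rq).filter (fun r => P r.2)).card = ∑ c, ((rq c).map (fun m => if P m then 1 else 0)).sum := by
  rw [Finset.card_eq_sum_card_fiberwise (f := fun r : C × V × V => r.1) (t := univ) (fun _ _ => mem_univ _)]
  refine Finset.sum_congr rfl fun c _ => ?_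
  rw [rqu_filter, rqu_count _ (h c).of_map]

theorem rq_deg [Fintype C] (rq : C → List (V × V)) (h : ∀ c, ((rq c).map Prod.fst).Nodup) (v : V) :
    ((rqQ rq).filter (fun r => r.2.1 = v)).card + ((rqQ rq).filter (fun r => r.2.2 = v)).card =
      ∑ c, rends (rq c) v := by
  rw [rqu_total rq h (fun m => m.1 = v), rqu_total rq h (fun m => m.2 = v), ← Finset.sum_add_distrib]
  refine Finset.sum_congr rfl fun c _ => ?_
  unfold rends
  rw [List.sum_map_add]

theorem rq_real (rq : List (V × V)) (c : C) (h : (rq.map Prod.fst).Nodup)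
    (z : C × V × V → Finset (Item V C)) (hz : ∀ r ∈ rq, IsLink 1 c r.1 r.2 (z (c, r)))
    (hd : ∀ r ∈ rq, ∀ r' ∈ rq, r ≠ r' → Disjoint (z (c, r)) (z (c, r'))) :
    RealL c rq (rq.toFinset.biUnion (fun r => z (c, r))) := by
  have hnd : rq.Nodup := h.of_map
  refine ⟨fun i => if hi : i < rq.length then z (c, rq[i]) else ∅, ?_, ?_, ?_⟩
  · intro i hi
    simp only [hi, dif_pos]
    exact hz _ (List.getElem_mem hi)
  · intro i hi j hj hij
    simp only [hi, hj, dif_pos]
    refine hd _ (List.getElem_mem hi) _ (List.getElem_mem hj) ?_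
    intro he
    exact hij ((hnd.getElem_inj_iff).1 he)
  · ext x
    simp only [mem_biUnion, List.mem_toFinset, mem_range]
    constructor
    · rintro ⟨r, hr, hx⟩
      obtain ⟨i, hi, rfl⟩ := List.getElem_of_mem hr
      exact ⟨i, hi, by rw [dif_pos hi]; exact hx⟩
    · rintro ⟨i, hi, hx⟩
      rw [dif_pos hi] at hx
      exact ⟨_, List.getElem_mem hi, hx⟩

end TFB
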